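import Mathlib

/-!
# Ordered cographs and two-colourings of pairs

The pairs `a < b` of natural numbers are coloured by `χ a b`.
-/

set_option autoImplicit false

namespace Pool.Agent.N440.OS

open Finset Classical

/-- Ordered cographs: a point, or `P` followed by `Q` with all pairs between them of colour `ε`. -/
inductive OC
  | pt : OC
  | comb (ε : Bool) (P Q : OC) : OC

/-- number of vertices -/
def OC.size : OC → ℕ
  | .pt => 1
  | .comb _ P Q => P.size + Q.size

lemma OC.size_pos (P : OC) : 1 ≤ P.size := by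
  induction P with
  | pt => exact le_rfl
  | comb ε P Q hP hQ => simp only [OC.size]; omega

/-- `Z` is a copy of the ordered cograph `P`. -/
def Copy (χ : ℕ → ℕ → Bool) : OC → Finset ℕ → Prop
  | .pt, Z => ∃ v, Z = {v}
  | .comb ε P Q, Z => ∃ Z₁ Z₂ : Finset ℕ, Z = Z₁ ∪ Z₂ ∧ (∀ x ∈ Z₁, ∀ y ∈ Z₂, x < y) ∧
      (∀ x ∈ Z₁, ∀ y ∈ Z₂, χ x y = ε) ∧ Copy χ P Z₁ ∧ Copy χ Q Z₂

lemma Copy.card {χ : ℕ → ℕ → Bool} {P : OC} : ∀ {Z : Finset ℕ}, Copy χ P Z → Z.card = P.size := by
  induction P with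
  | pt => rintro Z ⟨v, rfl⟩; simp [OC.size]
  | comb ε P Q hP hQ =>
    rintro Z ⟨Z₁, Z₂, rfl, h1, _, h3, h4⟩
    have hdis : Disjoint Z₁ Z₂ := by
      rw [disjoint_left]
      intro x hx hx'
      exact lt_irrefl _ (h1 x hx x hx')
    rw [card_union_of_disjoint hdis, hP h3, hQ h4, OC.size]

/-- The pairs in `H` all have colour `ε`. -/
def Hom (χ : ℕ → ℕ → Bool) (ε : Bool) (H : Finset ℕ) : Prop :=
  ∀ x ∈ H, ∀ y ∈ H, x < y → χ x y = ε

/-- A point followed by a set all of whose points are joined to it in colour `ε`. -/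
def Cone (χ : ℕ → ℕ → Bool) (ε : Bool) (Q : OC) (v : ℕ) (Z : Finset ℕ) : Prop :=
  (∀ z ∈ Z, v < z) ∧ (∀ z ∈ Z, χ v z = ε) ∧ Copy χ Q Z

/-- Threshold for a cone. -/
lemma exists_cone {χ : ℕ → ℕ → Bool} {ε : Bool} {Q : OC} {n t : ℕ}
    (hQ : ∀ U : Finset ℕ, t ≤ U.card → (∃ H ⊆ U, H.card = n ∧ ∃ δ, Hom χ δ H) ∨
      ∃ Z ⊆ U, Copy χ Q Z) :
    ∀ (j : ℕ) (X : Finset ℕ), j * (t + 1) ≤ X.card → (∃ H ⊆ X, H.card = n ∧ ∃ δ, Hom χ δ H) ∨
      (∃ v ∈ X, ∃ Z ⊆ X, Cone χ ε Q v Z) ∨ ∃ H ⊆ X, H.card = j ∧ Hom χ (!ε) H := by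
  intro j
  induction j with
  | zero =>
    intro X _
    exact Or.inr (Or.inr ⟨∅, empty_subset _, rfl, by simp [Hom]⟩)
  | succ j ih =>
    intro X hX
    have hpos : 0 < X.card := lt_of_lt_of_le (by positivity) hX
    have hne : X.Nonempty := card_pos.1 hpos
    set v := X.min' hne with hv
    have hvX : v ∈ X := min'_mem _ _
    set N := X.filter fun z => v < z ∧ χ v z = ε with hN
    by_cases hNt : t ≤ N.card
    · rcases hQ N hNt with ⟨H, hH, h1, h2⟩ | ⟨Z, hZ, hc⟩
      · exact Or.inl ⟨H, hH.trans (filter_subset _ _), h1, h2⟩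
      · refine Or.inr (Or.inl ⟨v, hvX, Z, hZ.trans (filter_subset _ _), ?_, ?_, hc⟩)
        · intro z hz; exact (mem_filter.1 (hZ hz)).2.1
        · intro z hz; exact (mem_filter.1 (hZ hz)).2.2
    · set X' := (X.erase v) \ N with hX'
      have hc : j * (t + 1) ≤ X'.card := by
        have h1 : (X.erase v).card - N.card ≤ X'.card := le_card_sdiff _ _
        rw [card_erase_of_mem hvX] at h1
        have h2 : (j + 1) * (t + 1) = j * (t + 1) + (t + 1) := by ring
        omega
      have hsub : X' ⊆ X := sdiff_subset.trans (erase_subset _ _)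
      rcases ih X' hc with ⟨H, hH, h1⟩ | ⟨u, hu, Z, hZ, h1⟩ | ⟨H, hH, h1, h2⟩
      · exact Or.inl ⟨H, hH.trans hsub, h1⟩
      · exact Or.inr (Or.inl ⟨u, hsub hu, Z, hZ.trans hsub, h1⟩)
      · have hvlt : ∀ x ∈ H, v < x ∧ χ v x = !ε := by
          intro x hx
          have h3 := hH hx
          rw [hX', mem_sdiff, mem_erase] at h3
          have h4 : v < x := lt_of_le_of_ne (min'_le _ _ h3.1.2) (Ne.symm h3.1.1)
          refine ⟨h4, ?_⟩
          have h5 : χ v x ≠ ε := by
            intro h6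
            exact h3.2 (mem_filter.2 ⟨h3.1.2, h4, h6⟩)
          cases hε : ε <;> cases hχ : χ v x <;> simp_all
        refine Or.inr (Or.inr ⟨insert v H, ?_, ?_, ?_⟩)
        · exact insert_subset hvX (hH.trans hsub)
        · rw [card_insert_of_notMem (fun h => lt_irrefl _ (hvlt v h).1), h1]
        · intro x hx y hy hxy
          rw [mem_insert] at hx hy
          rcases hx with rfl | hx
          · rcases hy with rfl | hy
            · exact absurd hxy (lt_irrefl _)
            · exact (hvlt y hy).2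
          · rcases hy with rfl | hy
            · exact absurd hxy (not_lt.2 (hvlt x hx).1.le)
            · exact h2 x hx y hy hxy

/-- The number of `m`-subsets of `U` which contain `T`. -/
lemma card_super_le (U T : Finset ℕ) (m k : ℕ) (hT : T.card = k) (hTU : T ⊆ U) :
    ((U.powersetCard m).filter fun X => T ⊆ X).card ≤ (U.card - k).choose (m - k) := by
  have h1 : (U \ T).card = U.card - k := by rw [card_sdiff_of_subset hTU, hT]
  rw [← h1, ← card_powersetCard]
  refine card_le_card_of_injOn (fun X => X \ T) ?_ ?_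
  · intro X hX
    have hX' := mem_filter.1 (mem_coe.1 hX)
    rw [mem_powersetCard] at hX'
    rw [mem_coe, mem_powersetCard]
    refine ⟨sdiff_subset_sdiff hX'.1.1 (Subset.refl _), ?_⟩
    rw [card_sdiff_of_subset hX'.2, hT, hX'.1.2]
  · intro X hX Y hY hXY
    have hX' := (mem_filter.1 (mem_coe.1 hX)).2
    have hY' := (mem_filter.1 (mem_coe.1 hY)).2
    have hXY' : X \ T = Y \ T := hXY
    rw [← sdiff_union_of_subset hX', ← sdiff_union_of_subset hY', hXY']

/-- The substitution step. -/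
lemma exists_comb {χ : ℕ → ℕ → Bool} {ε : Bool} {P Q : OC} {n t m : ℕ} (U : Finset ℕ)
    (hP : ∀ V ⊆ U, t ≤ V.card → (∃ H ⊆ V, H.card = n ∧ ∃ δ, Hom χ δ H) ∨ ∃ Z ⊆ V, Copy χ P Z)
    (hcone : ∀ X ⊆ U, X.card = m → ∃ v ∈ X, ∃ Z ⊆ X, Cone χ ε Q v Z)
    (hm : Q.size + 1 ≤ m) (hmU : m ≤ U.card)
    (hU : (Q.size + 1) * m.choose (Q.size + 1) * t + (Q.size + 1) ≤ U.card) :
    (∃ H ⊆ U, H.card = n ∧ ∃ δ, Hom χ δ H) ∨ ∃ Z ⊆ U, Copy χ (OC.comb ε P Q) Z := by
  set q := Q.size with hq
  set N := U.card with hN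
  -- the cones in `U`
  set V : Finset ℕ → Finset ℕ := fun Z => U.filter fun v => Cone χ ε Q v Z with hV
  by_cases hbig : ∃ Z ⊆ U, t ≤ (V Z).card
  · obtain ⟨Z, hZ, ht⟩ := hbig
    have hVU : V Z ⊆ U := filter_subset _ _
    rcases hP (V Z) hVU ht with ⟨H, hH, h1⟩ | ⟨Z₁, hZ₁, h1⟩
    · exact Or.inl ⟨H, hH.trans hVU, h1⟩
    · by_cases hVe : (V Z).Nonempty
      · obtain ⟨v0, hv0⟩ := hVe
        have hc0 := (mem_filter.1 hv0).2
        refine Or.inr ⟨Z₁ ∪ Z, union_subset (hZ₁.trans hVU) hZ, Z₁, Z, rfl, ?_, ?_, h1, hc0.2.2⟩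
        · intro x hx y hy
          exact (mem_filter.1 (hZ₁ hx)).2.1 y hy
        · intro x hx y hy
          exact (mem_filter.1 (hZ₁ hx)).2.2.1 y hy
      · exfalso
        rw [not_nonempty_iff_eq_empty] at hVe
        rw [hVe, subset_empty] at hZ₁
        have := h1.card
        rw [hZ₁, card_empty] at this
        have := P.size_pos
        omega
  · exfalso
    push Not at hbig
    -- double counting
    have h1 : N.choose m ≤ ∑ Z ∈ U.powersetCard q, ∑ v ∈ V Z,
        ((U.powersetCard m).filter fun X => insert v Z ⊆ X).card := by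
      have h2 : ∀ X ∈ U.powersetCard m, 1 ≤ ∑ Z ∈ U.powersetCard q, ∑ v ∈ V Z,
          (if insert v Z ⊆ X then 1 else 0) := by
        intro X hX
        rw [mem_powersetCard] at hX
        obtain ⟨v, hv, Z, hZ, hc⟩ := hcone X hX.1 hX.2
        have hZU : Z ∈ U.powersetCard q := mem_powersetCard.2 ⟨hZ.trans hX.1, hc.2.2.card⟩
        have hvV : v ∈ V Z := mem_filter.2 ⟨hX.1 hv, hc⟩
        calc 1 = (if insert v Z ⊆ X then 1 else 0) := by
              rw [if_pos (insert_subset hv hZ)]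
          _ ≤ ∑ v ∈ V Z, (if insert v Z ⊆ X then 1 else 0) :=
              single_le_sum (f := fun v => if insert v Z ⊆ X then 1 else 0)
                (fun _ _ => Nat.zero_le _) hvV
          _ ≤ _ := single_le_sum
                (f := fun Z => ∑ v ∈ V Z, (if insert v Z ⊆ X then 1 else 0))
                (fun _ _ => Nat.zero_le _) hZU
      calc N.choose m = ∑ X ∈ U.powersetCard m, 1 := by
            rw [sum_const, card_powersetCard, smul_eq_mul, mul_one]
        _ ≤ ∑ X ∈ U.powersetCard m, ∑ Z ∈ U.powersetCard q, ∑ v ∈ V Z,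
            (if insert v Z ⊆ X then 1 else 0) := sum_le_sum h2
        _ = ∑ Z ∈ U.powersetCard q, ∑ v ∈ V Z, ∑ X ∈ U.powersetCard m,
            (if insert v Z ⊆ X then 1 else 0) := by
            rw [sum_comm]
            refine sum_congr rfl fun Z _ => ?_
            rw [sum_comm]
        _ = _ := by
            refine sum_congr rfl fun Z _ => sum_congr rfl fun v _ => ?_
            rw [card_filter]
    have h3 : ∀ Z ∈ U.powersetCard q, ∑ v ∈ V Z,
        ((U.powersetCard m).filter fun X => insert v Z ⊆ X).card ≤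
          t * (N - (q + 1)).choose (m - (q + 1)) := by
      intro Z hZ
      rw [mem_powersetCard] at hZ
      have h4 : ∀ v ∈ V Z, ((U.powersetCard m).filter fun X => insert v Z ⊆ X).card ≤
          (N - (q + 1)).choose (m - (q + 1)) := by
        intro v hv
        rw [mem_filter] at hv
        have hvZ : v ∉ Z := fun h => lt_irrefl _ (hv.2.1 v h)
        exact card_super_le U (insert v Z) m (q + 1) (by rw [card_insert_of_notMem hvZ, hZ.2])
          (insert_subset hv.1 hZ.1)
      calc _ ≤ ∑ v ∈ V Z, (N - (q + 1)).choose (m - (q + 1)) := sum_le_sum h4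
        _ = (V Z).card * (N - (q + 1)).choose (m - (q + 1)) := by rw [sum_const, smul_eq_mul]
        _ ≤ _ := Nat.mul_le_mul_right _ (hbig Z hZ.1).le
    have h5 : N.choose m ≤ N.choose q * (t * (N - (q + 1)).choose (m - (q + 1))) := by
      refine h1.trans ((sum_le_sum h3).trans ?_)
      rw [sum_const, card_powersetCard, smul_eq_mul]
    have h6 : N.choose m * m.choose (q + 1) = N.choose (q + 1) * (N - (q + 1)).choose (m - (q + 1)) :=
      Nat.choose_mul hm
    have hpos : 0 < (N - (q + 1)).choose (m - (q + 1)) := Nat.choose_pos (by omega)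
    have h7 : N.choose (q + 1) ≤ N.choose q * t * m.choose (q + 1) := by
      have h8 : N.choose (q + 1) * (N - (q + 1)).choose (m - (q + 1)) ≤
          N.choose q * t * m.choose (q + 1) * (N - (q + 1)).choose (m - (q + 1)) := by
        rw [← h6]
        calc N.choose m * m.choose (q + 1) ≤
              (N.choose q * (t * (N - (q + 1)).choose (m - (q + 1)))) * m.choose (q + 1) :=
              Nat.mul_le_mul_right _ h5
          _ = _ := by ring
      exact Nat.le_of_mul_le_mul_right h8 hpos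
    have h9 : N.choose (q + 1) * (q + 1) = N.choose q * (N - q) := Nat.choose_succ_right_eq N q
    have hposq : 0 < N.choose q := Nat.choose_pos (by omega)
    have h10 : N.choose q * (N - q) ≤ N.choose q * ((q + 1) * m.choose (q + 1) * t) := by
      rw [← h9]
      calc N.choose (q + 1) * (q + 1) ≤ (N.choose q * t * m.choose (q + 1)) * (q + 1) :=
            Nat.mul_le_mul_right _ h7
        _ = _ := by ring
    have h11 := Nat.le_of_mul_le_mul_left h10 hposq
    omega

/-- The threshold. -/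
def thr (n : ℕ) : OC → ℕ
  | .pt => 1
  | .comb _ P Q => (Q.size + 1) * (n * (thr n Q + 1) + Q.size + 1).choose (Q.size + 1) * thr n P +
      (n * (thr n Q + 1) + Q.size + 1)

/-- Large sets contain a homogeneous `n`-set or a copy of `P`. -/
lemma exists_copy (χ : ℕ → ℕ → Bool) (n : ℕ) : ∀ (P : OC) (U : Finset ℕ), thr n P ≤ U.card →
    (∃ H ⊆ U, H.card = n ∧ ∃ δ, Hom χ δ H) ∨ ∃ Z ⊆ U, Copy χ P Z := by
  intro P
  induction P with
  | pt =>
    intro U hU
    obtain ⟨v, hv⟩ := card_pos.1 (show 0 < U.card from hU)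
    exact Or.inr ⟨{v}, singleton_subset_iff.2 hv, v, rfl⟩
  | comb ε P Q hP hQ =>
    intro U hU
    by_cases hhom : ∃ H ⊆ U, H.card = n ∧ ∃ δ, Hom χ δ H
    · exact Or.inl hhom
    simp only [thr] at hU
    refine exists_comb (t := thr n P) (m := n * (thr n Q + 1) + Q.size + 1) U
      (fun V _ hV => hP V hV) ?_ (by omega) (by omega) (by omega)
    intro X hX hXc
    rcases exists_cone (ε := ε) hQ n X (by omega) with ⟨H, hH, h1⟩ | h1 | ⟨H, hH, h1, h2⟩
    · exact absurd ⟨H, hH.trans hX, h1⟩ hhom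
    · exact h1
    · exact absurd ⟨H, hH.trans hX, h1, _, h2⟩ hhom

/-- The threshold is polynomial. -/
lemma thr_le (P : OC) : ∃ C : ℕ, ∀ n, 2 ≤ n → thr n P ≤ n ^ C := by
  induction P with
  | pt => exact ⟨0, fun n _ => by simp [thr]⟩
  | comb ε P Q hP hQ =>
    obtain ⟨A, hA⟩ := hP
    obtain ⟨B, hB⟩ := hQ
    set q := Q.size with hq
    -- `n * (thr Q + 1) + q + 1 ≤ n ^ (B + q + 4)`
    refine ⟨q + 1 + (B + q + 4) * (q + 1) + A + (B + q + 4), fun n hn => ?_⟩
    have h1 := hA n hn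
    have h2 := hB n hn
    have hpow : ∀ k, k + 1 ≤ n ^ k := fun k => by
      calc k + 1 ≤ 2 ^ k := Nat.lt_two_pow_self
        _ ≤ n ^ k := Nat.pow_le_pow_left hn k
    have hn1 : 1 ≤ n ^ B := Nat.one_le_pow _ _ (by omega)
    have h3 : n * (thr n Q + 1) + q + 1 ≤ n ^ (B + q + 4) := by
      have h4 : n * (thr n Q + 1) ≤ n ^ (B + 2) := by
        calc n * (thr n Q + 1) ≤ n * (n ^ B + n ^ B) := Nat.mul_le_mul_left _ (by omega)
          _ = n * (2 * n ^ B) := by ring
          _ ≤ n * (n * n ^ B) := Nat.mul_le_mul_left _ (Nat.mul_le_mul_right _ hn)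
          _ = n ^ (B + 2) := by ring
      have h5 := hpow q
      have h6 : n ^ (B + 2) ≤ n ^ (B + 2) * n ^ q := Nat.le_mul_of_pos_right _ (by positivity)
      have h7 : n ^ q ≤ n ^ (B + 2) * n ^ q := Nat.le_mul_of_pos_left _ (by positivity)
      calc n * (thr n Q + 1) + q + 1 ≤ n ^ (B + 2) * n ^ q + n ^ (B + 2) * n ^ q := by omega
        _ = 2 * (n ^ (B + 2) * n ^ q) := by ring
        _ ≤ n ^ 2 * (n ^ (B + 2) * n ^ q) := Nat.mul_le_mul_right _ (by nlinarith)
        _ = n ^ (B + q + 4) := by ring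
    simp only [thr]
    have h8 : (n * (thr n Q + 1) + q + 1).choose (q + 1) ≤ n ^ ((B + q + 4) * (q + 1)) := by
      calc _ ≤ (n * (thr n Q + 1) + q + 1) ^ (q + 1) := Nat.choose_le_pow _ _
        _ ≤ (n ^ (B + q + 4)) ^ (q + 1) := Nat.pow_le_pow_left h3 _
        _ = _ := by rw [← pow_mul]
    have h9 : (q + 1) * (n * (thr n Q + 1) + q + 1).choose (q + 1) * thr n P ≤
        n ^ q * n ^ ((B + q + 4) * (q + 1)) * n ^ A :=
      Nat.mul_le_mul (Nat.mul_le_mul (hpow q) h8) h1
    have e1 : n ^ q * n ^ ((B + q + 4) * (q + 1)) * n ^ A =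
        n ^ (q + (B + q + 4) * (q + 1) + A) := by rw [← pow_add, ← pow_add]
    rw [e1] at h9
    set a := n ^ (q + (B + q + 4) * (q + 1) + A) with ha
    set b := n ^ (B + q + 4) with hb
    have ha1 : 1 ≤ a := Nat.one_le_pow _ _ (by omega)
    have hb1 : 1 ≤ b := Nat.one_le_pow _ _ (by omega)
    have e2 : n ^ (q + 1 + (B + q + 4) * (q + 1) + A + (B + q + 4)) = n * (a * b) := by
      rw [ha, hb]; ring
    rw [e2]
    calc _ ≤ a + b := Nat.add_le_add h9 h3
      _ ≤ 2 * (a * b) := by nlinarith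
      _ ≤ n * (a * b) := Nat.mul_le_mul_right _ hn

end Pool.Agent.N440.OS
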