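import Pool.Agent.N440.OS.Weight

/-!
# The reduction of Erdős and Rado to colourings of pairs
-/

set_option autoImplicit false

namespace Pool.Agent.N440.OS

open Finset Classical

/-- The tower function: `tow k x` is a tower of `k` twos with `x` on top. -/
def tow : ℕ → ℕ → ℕ
  | 0, x => x
  | k + 1, x => 2 ^ tow k x

lemma tow_mono (k : ℕ) {x y : ℕ} (h : x ≤ y) : tow k x ≤ tow k y := by
  induction k with
  | zero => exact h
  | succ k ih => exact Nat.pow_le_pow_right (by norm_num) ih

lemma le_tow (k x : ℕ) : x ≤ tow k x := by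
  induction k with
  | zero => exact le_rfl
  | succ k ih => exact ih.trans (Nat.lt_two_pow_self).le

lemma tow_pow (k : ℕ) {x p : ℕ} (hx : 2 ≤ x) (hp : 1 ≤ p) : (tow k x) ^ p ≤ tow k (x ^ p) := by
  induction k with
  | zero => exact le_rfl
  | succ k ih =>
    rw [tow, tow, ← pow_mul]
    refine Nat.pow_le_pow_right (by norm_num) (le_trans ?_ ih)
    obtain ⟨q, rfl⟩ : ∃ q, p = q + 1 := ⟨p - 1, by omega⟩
    rw [pow_succ, mul_comm]
    refine Nat.mul_le_mul_right _ ?_
    calc q + 1 ≤ 2 ^ q := Nat.lt_two_pow_self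
      _ ≤ tow k x ^ q := Nat.pow_le_pow_left (hx.trans (le_tow k x)) q

lemma end_hom (c : Finset ℕ → Bool) (k M : ℕ) : ∀ (t : ℕ) (P S : Finset ℕ), P.card + t ≤ M →
    2 ^ ((M ^ k + 1) * t) ≤ S.card →
    ∃ U ⊆ S, U.card = t ∧ ∀ A ⊆ P ∪ U, A.card = k → ∀ x ∈ U, ∀ y ∈ U, (∀ a ∈ A, a < x) →
      (∀ a ∈ A, a < y) → c (insert x A) = c (insert y A) := by
  intro t
  induction t with
  | zero =>
    intro P S _ _
    exact ⟨∅, empty_subset _, rfl, by simp⟩
  | succ t ih =>
    intro P S hPt hS
    set f : ℕ → Finset (Finset ℕ) := fun x => (P.powersetCard k).filter fun A =>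
      c (insert x A) = true with hf
    have hmaps : ∀ x ∈ S, f x ∈ (P.powersetCard k).powerset := fun x _ =>
      mem_powerset.2 (filter_subset _ _)
    have hcard : ((P.powersetCard k).powerset).card * 2 ^ ((M ^ k + 1) * t + 1) ≤ S.card := by
      refine le_trans ?_ hS
      rw [card_powerset, card_powersetCard, ← pow_add]
      refine Nat.pow_le_pow_right (by norm_num) ?_
      have h1 : P.card.choose k ≤ M ^ k :=
        (Nat.choose_le_pow _ _).trans (Nat.pow_le_pow_left (by omega) k)
      have h2 : (M ^ k + 1) * (t + 1) = M ^ k + ((M ^ k + 1) * t + 1) := by ring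
      omega
    obtain ⟨Y, -, hY⟩ := exists_le_card_fiber_of_mul_le_card_of_maps_to hmaps
      ⟨∅, by simp⟩ hcard
    set S₁ := S.filter fun x => f x = Y with hS₁
    have hne : S₁.Nonempty := by
      rw [← card_pos]
      exact lt_of_lt_of_le (by positivity) hY
    set v := S₁.min' hne with hv
    have hvS : v ∈ S₁ := min'_mem _ _
    have hS₂ : 2 ^ ((M ^ k + 1) * t) ≤ (S₁.erase v).card := by
      rw [card_erase_of_mem hvS]
      have h1 : 1 ≤ 2 ^ ((M ^ k + 1) * t) := Nat.one_le_two_pow
      have h2 : 2 ^ ((M ^ k + 1) * t + 1) = 2 * 2 ^ ((M ^ k + 1) * t) := by ring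
      omega
    obtain ⟨U, hU, hUt, hUh⟩ := ih (insert v P) (S₁.erase v)
      (by have := card_insert_le v P; omega) hS₂
    have hlt : ∀ u ∈ U, v < u := by
      intro u hu
      have := hU hu
      rw [mem_erase] at this
      exact lt_of_le_of_ne (min'_le _ _ this.2) (Ne.symm this.1)
    have hUS₁ : insert v U ⊆ S₁ := insert_subset hvS (hU.trans (erase_subset _ _))
    refine ⟨insert v U, hUS₁.trans (filter_subset _ _), ?_, ?_⟩
    · rw [card_insert_of_notMem (fun h => lt_irrefl _ (hlt v h)), hUt]
    · intro A hA hAk x hx y hy hAx hAy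
      by_cases hAP : A ⊆ P
      · have h1 : f x = f y := by
          rw [(mem_filter.1 (hUS₁ hx)).2, (mem_filter.1 (hUS₁ hy)).2]
        have h2 : A ∈ P.powersetCard k := mem_powersetCard.2 ⟨hAP, hAk⟩
        have h3 : c (insert x A) = true ↔ c (insert y A) = true := by
          have h4 : A ∈ f x ↔ A ∈ f y := by rw [h1]
          simpa [hf, h2, mem_filter] using h4
        exact Bool.eq_iff_iff.2 h3
      · -- `A` has an element of `insert v U`
        obtain ⟨a, haA, haP⟩ := not_subset.1 hAP
        have haU : a ∈ insert v U := by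
          have := hA haA
          rw [mem_union] at this
          exact this.resolve_left haP
        have hva : v ≤ a := by
          rw [mem_insert] at haU
          rcases haU with h | h
          · exact h.ge
          · exact (hlt a h).le
        have hxU : x ∈ U := by
          rw [mem_insert] at hx
          refine hx.resolve_left fun h => ?_
          have := hAx a haA
          omega
        have hyU : y ∈ U := by
          rw [mem_insert] at hy
          refine hy.resolve_left fun h => ?_
          have := hAy a haA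
          omega
        refine hUh A ?_ hAk x hxU y hyU hAx hAy
        rwa [insert_union, ← union_insert]

/-- Every colouring of the `r`-subsets is on a large set given by a colouring of pairs. -/
lemma exists_det (s : ℕ) : ∃ C : ℕ, 1 ≤ C ∧ ∀ M, 2 ≤ M → ∀ (c : Finset ℕ → Bool) (S : Finset ℕ),
    tow s (M ^ C) ≤ S.card → ∃ U ⊆ S, U.card = M ∧ ∃ χ : ℕ → ℕ → Bool, Det (s + 2) c χ U := by
  induction s with
  | zero =>
    refine ⟨1, le_rfl, fun M _ c S hS => ?_⟩
    obtain ⟨U, hU, hUM⟩ := exists_subset_card_eq (s := S) (n := M) (by simpa [tow] using hS)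
    refine ⟨U, hU, hUM, fun x y => c {x, y}, ?_⟩
    intro A _ hA x hx y hy hxy _
    have : A = {x, y} := by
      symm
      apply eq_of_subset_of_card_le
      · intro z hz
        rw [mem_insert, mem_singleton] at hz
        rcases hz with rfl | rfl
        · exact hx
        · exact hy
      · rw [hA, card_pair hxy.ne]
    rw [this]
  | succ s ih =>
    obtain ⟨C, hC, h⟩ := ih
    refine ⟨C * (2 * s + 7), by nlinarith, fun M hM c S hS => ?_⟩
    set N := tow s (M ^ C) with hN
    have hMC : 2 ≤ M ^ C := hM.trans (Nat.le_self_pow (by omega) M)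
    have hN2 : 2 ≤ N := hMC.trans (le_tow _ _)
    have hbig : 2 ^ (((N + 1) ^ (s + 2) + 1) * (N + 1)) ≤ S.card := by
      refine le_trans ?_ hS
      rw [tow]
      refine Nat.pow_le_pow_right (by norm_num) ?_
      rw [pow_mul]
      refine le_trans ?_ (tow_pow s hMC (by omega))
      rw [← hN]
      have h1 : N + 1 ≤ N ^ 2 := by nlinarith
      have h2 : (N + 1) ^ (s + 2) ≤ N ^ (2 * s + 4) := by
        calc (N + 1) ^ (s + 2) ≤ (N ^ 2) ^ (s + 2) := Nat.pow_le_pow_left h1 _
          _ = N ^ (2 * s + 4) := by rw [← pow_mul]; ring_nf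
      have h3 : 1 ≤ N ^ (2 * s + 4) := Nat.one_le_pow _ _ (by omega)
      calc ((N + 1) ^ (s + 2) + 1) * (N + 1) ≤ (N ^ (2 * s + 4) + N ^ (2 * s + 4)) * N ^ 2 :=
            Nat.mul_le_mul (Nat.add_le_add h2 h3) h1
        _ = 2 * (N ^ (2 * s + 4) * N ^ 2) := by ring
        _ ≤ N * (N ^ (2 * s + 4) * N ^ 2) := Nat.mul_le_mul_right _ hN2
        _ = N ^ (2 * s + 7) := by ring
    obtain ⟨U', hU', hU'c, hU'h⟩ := end_hom c (s + 2) (N + 1) (N + 1) ∅ S (by simp) hbig
    have hne : U'.Nonempty := by rw [← card_pos]; omega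
    set v := U'.max' hne with hv
    have hvU : v ∈ U' := max'_mem _ _
    obtain ⟨U, hU, hUM, χ, hdet⟩ := h M hM (fun A => c (insert v A)) (U'.erase v)
      (by rw [card_erase_of_mem hvU, hU'c]; omega)
    refine ⟨U, (hU.trans (erase_subset _ _)).trans hU', hUM, χ, ?_⟩
    intro A hA hAc x hx y hy hxy hz
    have hAne : A.Nonempty := ⟨x, hx⟩
    set w := A.max' hAne with hw
    have hwA : w ∈ A := max'_mem _ _
    have hAU' : A ⊆ U' := (hA.trans hU).trans (erase_subset _ _)
    -- `w` is not `x` or `y`
    have hyw : y < w := by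
      have h1 : ∃ z ∈ A, z ≠ x ∧ z ≠ y := by
        by_contra hcon
        push Not at hcon
        have h2 : A ⊆ {x, y} := by
          intro z hzA
          rw [mem_insert, mem_singleton]
          by_cases h3 : z = x
          · exact Or.inl h3
          · exact Or.inr (hcon z hzA h3)
        have h3 := (card_le_card h2).trans card_le_two
        omega
      obtain ⟨z, hzA, hzx, hzy⟩ := h1
      have h2 : y ≤ z := (hz z hzA).resolve_left hzx
      have h3 : z ≤ w := le_max' _ _ hzA
      omega
    have hBc : (A.erase w).card = s + 2 := by rw [card_erase_of_mem hwA, hAc]; rfl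
    have hlt : ∀ a ∈ A.erase w, a < w := by
      intro a ha
      rw [mem_erase] at ha
      exact lt_of_le_of_ne (le_max' _ _ ha.2) ha.1
    have hltv : ∀ a ∈ A.erase w, a < v := by
      intro a ha
      exact (hlt a ha).trans_le (le_max' _ _ (hAU' hwA))
    have h1 := hU'h (A.erase w) (by
      rw [empty_union]; exact (erase_subset _ _).trans hAU') hBc w (hAU' hwA) v hvU hlt hltv
    rw [insert_erase hwA] at h1
    rw [h1]
    refine hdet (A.erase w) ((erase_subset _ _).trans hA) hBc x
      (mem_erase.2 ⟨by omega, hx⟩) y (mem_erase.2 ⟨by omega, hy⟩) hxy ?_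
    intro z hzA
    exact hz z (mem_erase.1 hzA).2

end Pool.Agent.N440.OS
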