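import Pool.Agent.N440.OS.ER

/-!
# The two-sided reduction of Erdős and Rado
-/

set_option autoImplicit false

namespace Pool.Agent.N440.OS

open Finset Classical

lemma end_hom_min (c : Finset ℕ → Bool) (k M : ℕ) : ∀ (t : ℕ) (P S : Finset ℕ), P.card + t ≤ M →
    2 ^ ((M ^ k + 1) * t) ≤ S.card →
    ∃ U ⊆ S, U.card = t ∧ ∀ A ⊆ P ∪ U, A.card = k → ∀ x ∈ U, ∀ y ∈ U, (∀ a ∈ A, x < a) →
      (∀ a ∈ A, y < a) → c (insert x A) = c (insert y A) := by
  intro t
  induction t with
  | zero =>
    intro P S _ _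
    exact ⟨∅, empty_subset _, rfl, by simp⟩
  | succ t ih =>
    intro P S hPt hS
    set f : ℕ → Finset (Finset ℕ) := fun x => (P.powersetCard k).filter fun A =>
      c (insert x A) = true with hf
    have hmaps : ∀ x ∈ S, f x ∈ (P.powersetCard k).powerset := fun x _ =>
      mem_powerset.2 (filter_subset _ _)
    have hcard : ((P.powersetCard k).powerset).card * 2 ^ ((M ^ k + 1) * t + 1) ≤ S.card := by
      refine le_trans ?_ hS
      rw [card_powerset, card_powersetCard, ← pow_add]
      refine Nat.pow_le_pow_right (by norm_num) ?_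
      have h1 : P.card.choose k ≤ M ^ k :=
        (Nat.choose_le_pow _ _).trans (Nat.pow_le_pow_left (by omega) k)
      have h2 : (M ^ k + 1) * (t + 1) = M ^ k + ((M ^ k + 1) * t + 1) := by ring
      omega
    obtain ⟨Y, -, hY⟩ := exists_le_card_fiber_of_mul_le_card_of_maps_to hmaps
      ⟨∅, by simp⟩ hcard
    set S₁ := S.filter fun x => f x = Y with hS₁
    have hne : S₁.Nonempty := by
      rw [← card_pos]
      exact lt_of_lt_of_le (by positivity) hY
    set v := S₁.max' hne with hv
    have hvS : v ∈ S₁ := max'_mem _ _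
    have hS₂ : 2 ^ ((M ^ k + 1) * t) ≤ (S₁.erase v).card := by
      rw [card_erase_of_mem hvS]
      have h1 : 1 ≤ 2 ^ ((M ^ k + 1) * t) := Nat.one_le_two_pow
      have h2 : 2 ^ ((M ^ k + 1) * t + 1) = 2 * 2 ^ ((M ^ k + 1) * t) := by ring
      omega
    obtain ⟨U, hU, hUt, hUh⟩ := ih (insert v P) (S₁.erase v)
      (by have := card_insert_le v P; omega) hS₂
    have hlt : ∀ u ∈ U, u < v := by
      intro u hu
      have := hU hu
      rw [mem_erase] at this
      exact lt_of_le_of_ne (le_max' _ _ this.2) this.1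
    have hUS₁ : insert v U ⊆ S₁ := insert_subset hvS (hU.trans (erase_subset _ _))
    refine ⟨insert v U, hUS₁.trans (filter_subset _ _), ?_, ?_⟩
    · rw [card_insert_of_notMem (fun h => lt_irrefl _ (hlt v h)), hUt]
    · intro A hA hAk x hx y hy hAx hAy
      by_cases hAP : A ⊆ P
      · have h1 : f x = f y := by
          rw [(mem_filter.1 (hUS₁ hx)).2, (mem_filter.1 (hUS₁ hy)).2]
        have h2 : A ∈ P.powersetCard k := mem_powersetCard.2 ⟨hAP, hAk⟩
        have h3 : c (insert x A) = true ↔ c (insert y A) = true := by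
          have h4 : A ∈ f x ↔ A ∈ f y := by rw [h1]
          simpa [hf, h2, mem_filter] using h4
        exact Bool.eq_iff_iff.2 h3
      · obtain ⟨a, haA, haP⟩ := not_subset.1 hAP
        have haU : a ∈ insert v U := by
          have := hA haA
          rw [mem_union] at this
          exact this.resolve_left haP
        have hva : a ≤ v := by
          rw [mem_insert] at haU
          rcases haU with h | h
          · exact h.le
          · exact (hlt a h).le
        have hxU : x ∈ U := by
          rw [mem_insert] at hx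
          refine hx.resolve_left fun h => ?_
          have := hAx a haA
          omega
        have hyU : y ∈ U := by
          rw [mem_insert] at hy
          refine hy.resolve_left fun h => ?_
          have := hAy a haA
          omega
        refine hUh A ?_ hAk x hxU y hyU hAx hAy
        rwa [insert_union, ← union_insert]

/-- The colour of an `(i + j + 2)`-subset of `U` is the colour `χ` of the elements which have
`i` elements before them and `j` elements after them. -/
def Det2 (i j : ℕ) (c : Finset ℕ → Bool) (χ : ℕ → ℕ → Bool) (U : Finset ℕ) : Prop :=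
  ∀ B₁ ⊆ U, ∀ B₂ ⊆ U, ∀ x ∈ U, ∀ y ∈ U, B₁.card = i → B₂.card = j → (∀ b ∈ B₁, b < x) → x < y →
    (∀ b ∈ B₂, y < b) → c (B₁ ∪ {x, y} ∪ B₂) = χ x y

lemma step_arith {s C M N : ℕ} (hM : 2 ≤ M) (hC : 1 ≤ C)
    (hN : tow (s + 1) (M ^ (C * (2 * s + 7))) ≤ N) :
    2 ^ (((tow s (M ^ C) + 1) ^ (s + 2) + 1) * (tow s (M ^ C) + 1)) ≤ N := by
  have hMC : 2 ≤ M ^ C := hM.trans (Nat.le_self_pow (by omega) M)
  have hN2 : 2 ≤ tow s (M ^ C) := hMC.trans (le_tow _ _)
  refine le_trans ?_ hN
  rw [tow]
  refine Nat.pow_le_pow_right (by norm_num) ?_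
  rw [pow_mul]
  refine le_trans ?_ (tow_pow s hMC (by omega))
  generalize tow s (M ^ C) = N at *
  have h1 : N + 1 ≤ N ^ 2 := by nlinarith
  have h2 : (N + 1) ^ (s + 2) ≤ N ^ (2 * s + 4) := by
    calc (N + 1) ^ (s + 2) ≤ (N ^ 2) ^ (s + 2) := Nat.pow_le_pow_left h1 _
      _ = N ^ (2 * s + 4) := by rw [← pow_mul]; ring_nf
  have h3 : 1 ≤ N ^ (2 * s + 4) := Nat.one_le_pow _ _ (by omega)
  calc ((N + 1) ^ (s + 2) + 1) * (N + 1) ≤ (N ^ (2 * s + 4) + N ^ (2 * s + 4)) * N ^ 2 :=
        Nat.mul_le_mul (Nat.add_le_add h2 h3) h1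
    _ = 2 * (N ^ (2 * s + 4) * N ^ 2) := by ring
    _ ≤ N * (N ^ (2 * s + 4) * N ^ 2) := Nat.mul_le_mul_right _ hN2
    _ = N ^ (2 * s + 7) := by ring

/-- Every colouring of the `(i + j + 2)`-subsets is on a large set given by a colouring of
pairs. -/
def Red (i j : ℕ) : Prop := ∃ C : ℕ, 1 ≤ C ∧ ∀ M, 2 ≤ M → ∀ (c : Finset ℕ → Bool) (S : Finset ℕ),
    tow (i + j) (M ^ C) ≤ S.card → ∃ U ⊆ S, U.card = M ∧ ∃ χ : ℕ → ℕ → Bool, Det2 i j c χ U

lemma red_zero : Red 0 0 := by
  refine ⟨1, le_rfl, fun M _ c S hS => ?_⟩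
  obtain ⟨U, hU, hUM⟩ := exists_subset_card_eq (s := S) (n := M) (by simpa [tow] using hS)
  refine ⟨U, hU, hUM, fun x y => c {x, y}, ?_⟩
  intro B₁ _ B₂ _ x hx y hy h1 h2 _ _ _
  rw [card_eq_zero] at h1 h2
  subst h1 h2
  simp

lemma red_max {i j : ℕ} (h : Red i j) : Red i (j + 1) := by
  obtain ⟨C, hC, h⟩ := h
  refine ⟨C * (2 * (i + j) + 7), by nlinarith, fun M hM c S hS => ?_⟩
  have hbig := step_arith (s := i + j) hM hC hS
  set N := tow (i + j) (M ^ C) with hN
  obtain ⟨U', hU', hU'c, hU'h⟩ := end_hom c (i + j + 2) (N + 1) (N + 1) ∅ S (by simp) hbig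
  have hne : U'.Nonempty := by rw [← card_pos]; omega
  set v := U'.max' hne with hv
  have hvU : v ∈ U' := max'_mem _ _
  obtain ⟨U, hU, hUM, χ, hdet⟩ := h M hM (fun A => c (insert v A)) (U'.erase v)
    (by rw [card_erase_of_mem hvU, hU'c]; omega)
  have hUU' : U ⊆ U' := hU.trans (erase_subset _ _)
  refine ⟨U, hUU'.trans hU', hUM, χ, ?_⟩
  intro B₁ hB₁ B₂ hB₂ x hx y hy hi hj h1 hxy h2
  have hB₂ne : B₂.Nonempty := by rw [← card_pos]; omega
  set w := B₂.max' hB₂ne with hw
  have hwB : w ∈ B₂ := max'_mem _ _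
  have hyw : y < w := h2 w hwB
  have hD := hdet B₁ hB₁ (B₂.erase w) ((erase_subset _ _).trans hB₂) x hx y hy hi
    (by rw [card_erase_of_mem hwB, hj]; rfl) h1 hxy (fun b hb => h2 b (mem_erase.1 hb).2)
  rw [← hD]
  set A := B₁ ∪ {x, y} ∪ B₂.erase w with hA
  have hAlt : ∀ a ∈ A, a < w := by
    intro a ha
    rw [hA, mem_union, mem_union, mem_insert, mem_singleton, mem_erase] at ha
    rcases ha with (ha | rfl | rfl) | ha
    · have := h1 a ha; omega
    · omega
    · exact hyw
    · exact lt_of_le_of_ne (le_max' _ _ ha.2) ha.1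
  have hAU : A ⊆ U' := by
    refine Subset.trans ?_ hUU'
    rw [hA]
    refine union_subset (union_subset hB₁ ?_) ((erase_subset _ _).trans hB₂)
    intro z hz
    rw [mem_insert, mem_singleton] at hz
    rcases hz with rfl | rfl
    · exact hx
    · exact hy
  have hwU' : w ∈ U' := hUU' (hB₂ hwB)
  have hAc : A.card = i + j + 2 := by
    have d1 : Disjoint B₁ {x, y} := by
      rw [disjoint_left]
      intro z hz hz'
      have := h1 z hz
      rw [mem_insert, mem_singleton] at hz'
      omega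
    have d2 : Disjoint (B₁ ∪ {x, y}) (B₂.erase w) := by
      rw [disjoint_left]
      intro z hz hz'
      have h3 := h2 z (mem_erase.1 hz').2
      rw [mem_union, mem_insert, mem_singleton] at hz
      rcases hz with hz | hz
      · have := h1 z hz; omega
      · omega
    rw [hA, card_union_of_disjoint d2, card_union_of_disjoint d1, card_pair hxy.ne, hi,
      card_erase_of_mem hwB, hj]
    omega
  have hE := hU'h A (by rw [empty_union]; exact hAU) hAc w hwU' v hvU hAlt
    (fun a ha => (hAlt a ha).trans_le (le_max' _ _ hwU'))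
  have hins : insert w A = B₁ ∪ {x, y} ∪ B₂ := by
    rw [hA, ← union_insert, insert_erase hwB]
  rw [hins] at hE
  exact hE

lemma red_min {i j : ℕ} (h : Red i j) : Red (i + 1) j := by
  obtain ⟨C, hC, h⟩ := h
  refine ⟨C * (2 * (i + j) + 7), by nlinarith, fun M hM c S hS => ?_⟩
  have hij : i + 1 + j = i + j + 1 := by ring
  rw [hij] at hS
  have hbig := step_arith (s := i + j) hM hC hS
  set N := tow (i + j) (M ^ C) with hN
  obtain ⟨U', hU', hU'c, hU'h⟩ := end_hom_min c (i + j + 2) (N + 1) (N + 1) ∅ S (by simp) hbig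
  have hne : U'.Nonempty := by rw [← card_pos]; omega
  set v := U'.min' hne with hv
  have hvU : v ∈ U' := min'_mem _ _
  obtain ⟨U, hU, hUM, χ, hdet⟩ := h M hM (fun A => c (insert v A)) (U'.erase v)
    (by rw [card_erase_of_mem hvU, hU'c]; omega)
  have hUU' : U ⊆ U' := hU.trans (erase_subset _ _)
  refine ⟨U, hUU'.trans hU', hUM, χ, ?_⟩
  intro B₁ hB₁ B₂ hB₂ x hx y hy hi hj h1 hxy h2
  have hB₁ne : B₁.Nonempty := by rw [← card_pos]; omega
  set w := B₁.min' hB₁ne with hw
  have hwB : w ∈ B₁ := min'_mem _ _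
  have hxw : w < x := h1 w hwB
  have hD := hdet (B₁.erase w) ((erase_subset _ _).trans hB₁) B₂ hB₂ x hx y hy
    (by rw [card_erase_of_mem hwB, hi]; rfl) hj (fun b hb => h1 b (mem_erase.1 hb).2) hxy h2
  rw [← hD]
  set A := B₁.erase w ∪ {x, y} ∪ B₂ with hA
  have hAlt : ∀ a ∈ A, w < a := by
    intro a ha
    rw [hA, mem_union, mem_union, mem_insert, mem_singleton, mem_erase] at ha
    rcases ha with (ha | rfl | rfl) | ha
    · exact lt_of_le_of_ne (min'_le _ _ ha.2) (Ne.symm ha.1)
    · omega
    · omega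
    · have := h2 a ha; omega
  have hAU : A ⊆ U' := by
    refine Subset.trans ?_ hUU'
    rw [hA]
    refine union_subset (union_subset ((erase_subset _ _).trans hB₁) ?_) hB₂
    intro z hz
    rw [mem_insert, mem_singleton] at hz
    rcases hz with rfl | rfl
    · exact hx
    · exact hy
  have hwU' : w ∈ U' := hUU' (hB₁ hwB)
  have hAc : A.card = i + j + 2 := by
    have d1 : Disjoint (B₁.erase w) {x, y} := by
      rw [disjoint_left]
      intro z hz hz'
      have := h1 z (mem_erase.1 hz).2
      rw [mem_insert, mem_singleton] at hz'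
      omega
    have d2 : Disjoint (B₁.erase w ∪ {x, y}) B₂ := by
      rw [disjoint_left]
      intro z hz hz'
      have h3 := h2 z hz'
      rw [mem_union, mem_insert, mem_singleton] at hz
      rcases hz with hz | hz
      · have := h1 z (mem_erase.1 hz).2; omega
      · omega
    rw [hA, card_union_of_disjoint d2, card_union_of_disjoint d1, card_pair hxy.ne, hj,
      card_erase_of_mem hwB, hi]
    omega
  have hE := hU'h A (by rw [empty_union]; exact hAU) hAc w hwU' v hvU hAlt
    (fun a ha => (min'_le _ _ hwU').trans_lt (hAlt a ha))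
  have hins : insert w A = B₁ ∪ {x, y} ∪ B₂ := by
    rw [hA, union_assoc, ← insert_union, insert_erase hwB, union_assoc]
  rw [hins] at hE
  exact hE

lemma red (i j : ℕ) : Red i j := by
  induction j with
  | zero =>
    induction i with
    | zero => exact red_zero
    | succ i ih => exact red_min ih
  | succ j ih => exact red_max ih

end Pool.Agent.N440.OS
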