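import Pool.Agent.N440.OS.Rep

/-!
# Every order-size pair is realized by an ordered cograph, for every uniformity
-/

set_option autoImplicit false

namespace Pool.Agent.N440.OS

open Finset

/-- The weight gained by joining `j` last points, one after the other, to an ordered cograph with
`t` points. -/
def S (s : ℕ) : ℕ → ℕ → ℕ
  | 0, _ => 0
  | j + 1, t => S s j (t + 1) + t * (s + j).choose s

lemma S_add (s : ℕ) (j : ℕ) : ∀ t δ : ℕ, S s j (t + δ) = S s j t + δ * (s + j).choose (s + 1) := by
  induction j with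
  | zero =>
    intro t δ
    simp [S]
  | succ j ih =>
    intro t δ
    have h1 : t + δ + 1 = (t + 1) + δ := by ring
    have h2 : (s + (j + 1)).choose (s + 1) = (s + j).choose s + (s + j).choose (s + 1) :=
      Nat.choose_succ_succ (s + j) s
    rw [S, S, h1, ih, h2]
    ring

lemma S_one (s : ℕ) (j : ℕ) : S s j 1 = (s + 1 + j).choose (s + 2) := by
  induction j with
  | zero => simp [S]
  | succ j ih =>
    have h1 : (s + 1 + (j + 1)).choose (s + 2) = (s + 1 + j).choose (s + 1) +
      (s + 1 + j).choose (s + 2) := Nat.choose_succ_succ (s + 1 + j) (s + 1)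
    have h2 : (s + 1 + j).choose (s + 1) = (s + j).choose s + (s + j).choose (s + 1) := by
      have : s + 1 + j = (s + j) + 1 := by ring
      rw [this]
      exact Nat.choose_succ_succ (s + j) s
    rw [S, S_add, ih, h1, h2]
    ring

/-- Add `δ` isolated first points. -/
def isoN : ℕ → OC → OC
  | 0, P => P
  | δ + 1, P => .comb false .pt (isoN δ P)

lemma size_isoN (δ : ℕ) (P : OC) : (isoN δ P).size = P.size + δ := by
  induction δ with
  | zero => rfl
  | succ δ ih => simp only [isoN, OC.size, ih]; ring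

lemma W_isoN (r a δ : ℕ) (P : OC) : W r a (isoN δ P) = W r a P := by
  induction δ with
  | zero => rfl
  | succ δ ih => simp [isoN, W, ih]

lemma choose_ratio (s j : ℕ) :
    (s + 1 + (j + 1)).choose (s + 1) ≤ (s + 2) * (s + 1 + j).choose (s + 1) := by
  have h1 := Nat.choose_mul_succ_eq (s + 1 + j) (s + 1)
  have h2 : s + 1 + j + 1 - (s + 1) = j + 1 := by omega
  rw [h2] at h1
  have h3 : (s + 1 + j + 1).choose (s + 1) * (j + 1) ≤
      (s + 2) * (s + 1 + j).choose (s + 1) * (j + 1) := by
    rw [← h1]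
    calc (s + 1 + j).choose (s + 1) * (s + 1 + j + 1)
        ≤ (s + 1 + j).choose (s + 1) * ((s + 2) * (j + 1)) := by
          apply Nat.mul_le_mul_left
          nlinarith
      _ = (s + 2) * (s + 1 + j).choose (s + 1) * (j + 1) := by ring
  exact Nat.le_of_mul_le_mul_right h3 (Nat.succ_pos j)

lemma key (s : ℕ) (j : ℕ) : ∀ (P : OC) (ρ : ℕ), ρ < (s + 1 + j).choose (s + 1) →
    ∃ P' : OC, P'.size ≤ P.size + (s + 3) * j ∧
      W (s + 2) s P' = W (s + 2) (s + j) P + S s j P.size + ρ := by
  induction j with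
  | zero =>
    intro P ρ hρ
    have : ρ = 0 := by
      have : (s + 1 + 0).choose (s + 1) = 1 := by simp
      omega
    subst this
    exact ⟨P, by simp, by simp [S]⟩
  | succ j ih =>
    intro P ρ hρ
    set C := (s + 1 + j).choose (s + 1) with hC
    have hCpos : 0 < C := Nat.choose_pos (by omega)
    set δ := ρ / C with hδ
    have hδle : δ < s + 2 := by
      rw [hδ, Nat.div_lt_iff_lt_mul hCpos]
      exact hρ.trans_le (choose_ratio s j)
    obtain ⟨P', h1, h2⟩ := ih (.comb true (isoN δ P) .pt) (ρ % C) (Nat.mod_lt _ hCpos)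
    refine ⟨P', ?_, ?_⟩
    · simp only [OC.size, size_isoN] at h1
      have : (s + 3) * (j + 1) = (s + 3) * j + (s + 3) := by ring
      omega
    · rw [h2]
      have h3 : (s + j + 1).choose (s + 1) = (s + j).choose s + (s + j).choose (s + 1) :=
        Nat.choose_succ_succ (s + j) s
      have h4 : C = (s + j).choose s + (s + j).choose (s + 1) := by
        rw [hC, ← h3]
        congr 1
        ring
      have h5 : ρ = δ * C + ρ % C := by
        rw [hδ]
        have := Nat.div_add_mod ρ C
        nlinarith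
      have h6 : P.size + δ + 1 = (P.size + 1) + δ := by ring
      have h7 : s + 2 - 1 = s + 1 := rfl
      have h8 : s + (j + 1) = s + j + 1 := by ring
      simp only [W, OC.size, size_isoN, W_isoN, if_true, h7, h3, S, h6, S_add, h8]
      rw [Nat.add_sub_cancel]
      have h9 : P.size * (s + j).choose s + δ * (s + j).choose s = (P.size + δ) * (s + j).choose s := by
        ring
      have h10 : δ * C = δ * (s + j).choose s + δ * (s + j).choose (s + 1) := by rw [h4]; ring
      have h11 := S_add s j (P.size + 1) δ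
      have h12 := S_add s j P.size 1
      generalize ρ % C = q at *
      rw [h5, h10]
      ring

/-- All sizes below `C (J + r, r)` are realized on about `(r + 1) J` points. -/
lemma rep_small (s J f : ℕ) (hf : f < (J + s + 2).choose (s + 2)) :
    Rep (s + 2) ((s + 3) * J + s + 1) f := by
  -- the block of `f`
  have hex : ∃ j, f < (j + s + 2).choose (s + 2) := ⟨J, hf⟩
  classical
  set j := Nat.find hex with hj
  have hj1 : f < (j + s + 2).choose (s + 2) := Nat.find_spec hex
  have hjJ : j ≤ J := Nat.find_min' hex hf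
  have hj2 : (s + 1 + j).choose (s + 2) ≤ f := by
    rcases Nat.eq_zero_or_pos j with h0 | h0
    · rw [h0]; simp
    · have := Nat.find_min hex (m := j - 1) (by omega)
      rw [not_lt] at this
      have h1 : j - 1 + s + 2 = s + 1 + j := by omega
      rwa [h1] at this
  have hj3 : (j + s + 2).choose (s + 2) = (s + 1 + j).choose (s + 1) +
      (s + 1 + j).choose (s + 2) := by
    have h1 : j + s + 2 = (s + 1 + j) + 1 := by ring
    rw [h1]
    exact Nat.choose_succ_succ (s + 1 + j) (s + 1)
  obtain ⟨P', h1, h2⟩ := key s j .pt (f - (s + 1 + j).choose (s + 2)) (by omega)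
  have h3 : Rep (s + 2) (P'.size + s) f := by
    refine ⟨P', rfl, ?_⟩
    show W (s + 2) s P' = f
    rw [h2]
    simp only [W, OC.size]
    rw [S_one]
    omega
  refine h3.iso_le ?_
  simp only [OC.size] at h1
  have : (s + 3) * j ≤ (s + 3) * J := Nat.mul_le_mul_left _ hjJ
  omega

/-- All sizes below `g` are realized. -/
def Init (r m g : ℕ) : Prop := ∀ f < g, Rep r m f

lemma Init.step {r m g : ℕ} (hr : 2 ≤ r) (h : Init r m g) (hg : m.choose (r - 1) ≤ g) :
    Init r (m + 1) (g + m.choose (r - 1)) := by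
  intro f hf
  by_cases h1 : f < g
  · exact (h f h1).iso
  · have h2 := (h (f - m.choose (r - 1)) (by omega)).dom hr
    have h3 : f - m.choose (r - 1) + m.choose (r - 1) = f := by omega
    rwa [h3] at h2

lemma Init.grow {s m₁ g₁ : ℕ} (h : Init (s + 2) m₁ g₁) (hg : m₁.choose (s + 1) ≤ g₁)
    (hm : 2 * s + 2 ≤ m₁) (k : ℕ) :
    ∃ g, Init (s + 2) (m₁ + k) g ∧ (m₁ + k).choose (s + 1) ≤ g ∧
      (m₁ + k).choose (s + 2) ≤ g + m₁.choose (s + 2) := by
  induction k with
  | zero => exact ⟨g₁, h, hg, by simp⟩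
  | succ k ih =>
    obtain ⟨g, h1, h2, h3⟩ := ih
    refine ⟨g + (m₁ + k).choose (s + 1), h1.step (by omega) h2, ?_, ?_⟩
    · have h4 : (m₁ + (k + 1)).choose (s + 1) = (m₁ + k).choose s + (m₁ + k).choose (s + 1) :=
        Nat.choose_succ_succ (m₁ + k) s
      have h5 : (m₁ + k).choose s ≤ (m₁ + k).choose (s + 1) :=
        Nat.choose_le_succ_of_lt_half_left (by omega)
      omega
    · have h4 : (m₁ + (k + 1)).choose (s + 2) = (m₁ + k).choose (s + 1) +
        (m₁ + k).choose (s + 2) := Nat.choose_succ_succ (m₁ + k) (s + 1)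
      omega

lemma le_choose (r k : ℕ) (hr : 1 ≤ r) : k + 1 ≤ (r + k).choose r := by
  induction k with
  | zero => simp
  | succ k ih =>
    obtain ⟨t, rfl⟩ : ∃ t, r = t + 1 := ⟨r - 1, by omega⟩
    have h4 : (t + 1 + (k + 1)).choose (t + 1) = (t + 1 + k).choose t + (t + 1 + k).choose (t + 1) :=
      Nat.choose_succ_succ (t + 1 + k) t
    have h5 : 0 < (t + 1 + k).choose t := Nat.choose_pos (by omega)
    omega

/-- For every uniformity all order-size pairs of large order are realized. -/
theorem exists_full (r : ℕ) (hr : 2 ≤ r) : ∃ m₀, r < m₀ ∧ ∀ m, m₀ ≤ m → Full r m := by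
  obtain ⟨s, rfl⟩ : ∃ s, r = s + 2 := ⟨r - 2, by omega⟩
  set K := (s + 2).factorial * (s + 3) ^ (s + 1) with hK
  have hKpos : 2 ≤ K := by
    have h1 : 1 ≤ (s + 2).factorial := Nat.factorial_pos _
    have h2 : 3 ≤ (s + 3) ^ (s + 1) :=
      (show 3 ≤ s + 3 by omega).trans (Nat.le_self_pow (by omega) _)
    nlinarith
  set J := K - 1 with hJ
  have hJK : J + 1 = K := by omega
  set m₁ := (s + 3) * J + s + 1 with hm₁
  set g₁ := (J + s + 2).choose (s + 2) with hg₁
  have hinit : Init (s + 2) m₁ g₁ := fun f hf => rep_small s J f hf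
  have hm₁le : m₁ ≤ (s + 3) * K := by rw [hm₁, ← hJK]; nlinarith
  have hg : m₁.choose (s + 1) ≤ g₁ := by
    have h1 : m₁.choose (s + 1) ≤ m₁ ^ (s + 1) := Nat.choose_le_pow _ _
    have h2 : m₁ ^ (s + 1) ≤ ((s + 3) * K) ^ (s + 1) := Nat.pow_le_pow_left hm₁le _
    have h3 : K ^ (s + 2) ≤ (s + 2).factorial * g₁ := by
      have := Nat.pow_sub_le_descFactorial (J + s + 2) (s + 2)
      rw [Nat.descFactorial_eq_factorial_mul_choose] at this
      have h4 : J + s + 2 + 1 - (s + 2) = K := by omega
      rwa [h4] at this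
    have h4 : K ^ (s + 2) = (s + 2).factorial * ((s + 3) * K) ^ (s + 1) := by
      calc K ^ (s + 2) = K ^ (s + 1) * K := pow_succ K (s + 1)
        _ = K ^ (s + 1) * ((s + 2).factorial * (s + 3) ^ (s + 1)) := by rw [← hK]
        _ = (s + 2).factorial * ((s + 3) * K) ^ (s + 1) := by
          clear_value K
          rw [mul_pow]
          ring
    have h5 : (s + 2).factorial * ((s + 3) * K) ^ (s + 1) ≤ (s + 2).factorial * g₁ := by
      rw [← h4]; exact h3
    exact h1.trans (h2.trans (Nat.le_of_mul_le_mul_left h5 (Nat.factorial_pos _)))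
  have hJ1 : 1 ≤ J := by omega
  have hm₁2 : 2 * s + 2 ≤ m₁ := by rw [hm₁]; nlinarith
  refine ⟨m₁ + (s + 2) + 2 * m₁.choose (s + 2), by omega, ?_⟩
  intro m hm f hf
  obtain ⟨k, rfl⟩ : ∃ k, m = m₁ + k := ⟨m - m₁, by omega⟩
  obtain ⟨g, h1, _, h3⟩ := hinit.grow hg hm₁2 k
  by_cases hfg : f < g
  · exact h1 f hfg
  · have h4 : 2 * m₁.choose (s + 2) < (m₁ + k).choose (s + 2) := by
      have h5 := le_choose (s + 2) (2 * m₁.choose (s + 2)) (by omega)
      have h6 : (s + 2 + 2 * m₁.choose (s + 2)).choose (s + 2) ≤ (m₁ + k).choose (s + 2) :=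
        Nat.choose_le_choose _ (by omega)
      omega
    have h7 : Rep (s + 2) (m₁ + k) ((m₁ + k).choose (s + 2) - f) := h1 _ (by omega)
    have h8 := h7.compl (by omega)
    have h9 : (m₁ + k).choose (s + 2) - ((m₁ + k).choose (s + 2) - f) = f := by omega
    rwa [h9] at h8

end Pool.Agent.N440.OS
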