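import Pool.Agent.N440.OS.ERTwo
import Pool.Agent.N440.OS.RepAll

/-!
# All order-size pairs occur in colourings without large homogeneous sets
-/

set_option autoImplicit false

namespace Pool.Agent.N440.OS

open Finset Classical

lemma exists_initial (A : Finset ℕ) (i : ℕ) (hi : i ≤ A.card) :
    ∃ B ⊆ A, B.card = i ∧ ∀ b ∈ B, ∀ a ∈ A \ B, b < a := by
  induction i with
  | zero => exact ⟨∅, empty_subset _, rfl, by simp⟩
  | succ i ih =>
    obtain ⟨B, hB, hBi, hlt⟩ := ih (by omega)
    have hne : (A \ B).Nonempty := by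
      rw [← card_pos, card_sdiff_of_subset hB]; omega
    set w := (A \ B).min' hne with hw
    have hwA : w ∈ A \ B := min'_mem _ _
    have hwA' := mem_sdiff.1 hwA
    refine ⟨insert w B, insert_subset hwA'.1 hB, by rw [card_insert_of_notMem hwA'.2, hBi], ?_⟩
    intro b hb a ha
    rw [mem_sdiff, mem_insert] at ha
    push Not at ha
    have haB : a ∈ A \ B := mem_sdiff.2 ⟨ha.1, ha.2.2⟩
    rw [mem_insert] at hb
    rcases hb with rfl | hb
    · exact lt_of_le_of_ne (min'_le _ _ haB) (Ne.symm ha.2.1)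
    · exact hlt b hb a haB

lemma exists_final (A : Finset ℕ) (i : ℕ) (hi : i ≤ A.card) :
    ∃ B ⊆ A, B.card = i ∧ ∀ b ∈ B, ∀ a ∈ A \ B, a < b := by
  obtain ⟨B, hB, hBi, hlt⟩ := exists_initial A (A.card - i) (by omega)
  refine ⟨A \ B, sdiff_subset, by rw [card_sdiff_of_subset hB]; omega, ?_⟩
  intro b hb a ha
  rw [sdiff_sdiff_right_self, inf_eq_inter, mem_inter] at ha
  exact hlt a ha.2 b hb

/-- All `r`-subsets of `H` have the same colour. -/
def HomR (r : ℕ) (c : Finset ℕ → Bool) (H : Finset ℕ) : Prop :=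
  ∃ δ : Bool, ∀ A ⊆ H, A.card = r → c A = δ

/-- `Z` has exactly `f` subsets of size `r` and colour `true`. -/
def Cnt (r : ℕ) (c : Finset ℕ → Bool) (Z : Finset ℕ) (f : ℕ) : Prop :=
  ((Z.powersetCard r).filter fun A => c A = true).card = f

/-- With the constant `C`, every colouring has a homogeneous set or the pair `(m, f)`. -/
def Good (r m f C : ℕ) : Prop := ∀ n, 2 ≤ n → ∀ (c : Finset ℕ → Bool) (S : Finset ℕ),
  tow (r - 2) (n ^ C) ≤ S.card → (∃ H ⊆ S, H.card = n ∧ HomR r c H) ∨
    ∃ Z ⊆ S, Z.card = m ∧ Cnt r c Z f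

lemma Good.mono {r m f C C' : ℕ} (h : Good r m f C) (hC : C ≤ C') : Good r m f C' := by
  intro n hn c S hS
  refine h n hn c S (le_trans (tow_mono _ ?_) hS)
  exact Nat.pow_le_pow_right (by omega) hC

lemma good_pattern (s : ℕ) (P : OC) : ∃ C, Good (s + 2) (P.size + s) (W (s + 2) s P) C := by
  obtain ⟨C₁, hC₁⟩ := thr_le P
  obtain ⟨C₂, hC₂, hdet⟩ := exists_det s
  refine ⟨(C₁ + s + 1) * C₂, fun n hn c S hS => ?_⟩
  have h1 : tow s ((n ^ (C₁ + s + 1)) ^ C₂) ≤ S.card := by rw [← pow_mul]; exact hS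
  have hM2 : 2 ≤ n ^ (C₁ + s + 1) := hn.trans (Nat.le_self_pow (by omega) n)
  have hbig : n ^ C₁ + s ≤ n ^ (C₁ + s + 1) := by
    have h2 : s + 1 ≤ n ^ (s + 1) :=
      (Nat.lt_two_pow_self).le.trans (Nat.pow_le_pow_left hn _)
    have h3 : 1 ≤ n ^ C₁ := Nat.one_le_pow _ _ (by omega)
    calc n ^ C₁ + s ≤ n ^ C₁ * (s + 1) := by nlinarith
      _ ≤ n ^ C₁ * n ^ (s + 1) := Nat.mul_le_mul_left _ h2
      _ = n ^ (C₁ + s + 1) := by rw [← pow_add]; ring_nf
  obtain ⟨U, hU, hUM, χ, hχ⟩ := hdet _ hM2 c S h1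
  obtain ⟨T, hT, hTs, hTlt⟩ := exists_final U s (by omega)
  have hU₀ : thr n P ≤ (U \ T).card := by
    rw [card_sdiff_of_subset hT, hUM, hTs]
    have := hC₁ n hn
    omega
  rcases exists_copy χ n P (U \ T) hU₀ with ⟨H, hH, hHn, δ, hδ⟩ | ⟨Z, hZ, hc⟩
  · refine Or.inl ⟨H, (hH.trans sdiff_subset).trans hU, hHn, δ, ?_⟩
    intro A hA hAr
    have hAne : A.Nonempty := by rw [← card_pos]; omega
    set x := A.min' hAne with hx
    have hxA : x ∈ A := min'_mem _ _
    have hA'ne : (A.erase x).Nonempty := by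
      rw [← card_pos, card_erase_of_mem hxA]; omega
    set y := (A.erase x).min' hA'ne with hy
    have hyA' : y ∈ A.erase x := min'_mem _ _
    have hyA := mem_erase.1 hyA'
    have hxy : x < y := lt_of_le_of_ne (min'_le _ _ hyA.2) (Ne.symm hyA.1)
    rw [hχ A (hA.trans (hH.trans sdiff_subset)) hAr x hxA y hyA.2 hxy ?_]
    · exact hδ x (hA hxA) y (hA hyA.2) hxy
    · intro z hz
      by_cases hzx : z = x
      · exact Or.inl hzx
      · exact Or.inr (min'_le _ _ (mem_erase.2 ⟨hzx, hz⟩))
  · have hZT : ∀ x ∈ Z, ∀ y ∈ T, x < y := fun x hx y hy => hTlt y hy x (hZ hx)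
    have hZU : Z ∪ T ⊆ U := union_subset (hZ.trans sdiff_subset) hT
    refine Or.inr ⟨Z ∪ T, hZU.trans hU, ?_, ?_⟩
    · rw [card_union_of_disjoint, hc.card, hTs]
      rw [disjoint_left]
      intro z hz hz'
      exact lt_irrefl _ (hZT z hz z hz')
    · exact card_true (by omega) hZT (hχ.mono hZU) hc hTs

/-- The number of colour `true` sets which miss one point. -/
lemma card_miss_one {c : Finset ℕ → Bool} {Z X Y : Finset ℕ} {k : ℕ} {ε ε' : Bool}
    (hZ : Z = X ∪ Y) (hk : Z.card = k + 1) (hXY : Disjoint X Y)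
    (hX : ∀ z ∈ X, c (Z.erase z) = ε') (hY : ∀ z ∈ Y, c (Z.erase z) = ε) :
    Cnt k c Z ((if ε' = true then X.card else 0) + if ε = true then Y.card else 0) := by
  have h1 : (Z.powersetCard k).filter (fun A => c A = true) =
      (Z.filter fun z => c (Z.erase z) = true).image Z.erase := by
    ext A
    rw [mem_filter, mem_powersetCard, mem_image]
    constructor
    · rintro ⟨⟨hA, hAk⟩, hc⟩
      obtain ⟨z, hz⟩ := card_eq_one.1 (show (Z \ A).card = 1 by
        rw [card_sdiff_of_subset hA]; omega)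
      have hzZ : z ∈ Z \ A := by rw [hz]; exact mem_singleton_self z
      rw [mem_sdiff] at hzZ
      have hAe : Z.erase z = A := by
        rw [← sdiff_singleton_eq_erase, ← hz, sdiff_sdiff_right_self, inf_eq_inter,
          inter_eq_right.2 hA]
      refine ⟨z, mem_filter.2 ⟨hzZ.1, by rw [hAe]; exact hc⟩, hAe⟩
    · rintro ⟨z, hz, rfl⟩
      rw [mem_filter] at hz
      exact ⟨⟨erase_subset _ _, by rw [card_erase_of_mem hz.1]; omega⟩, hz.2⟩
  rw [Cnt, h1, card_image_of_injOn]
  · rw [show Z.filter (fun z => c (Z.erase z) = true) = (X.filter fun z => c (Z.erase z) = true) ∪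
      (Y.filter fun z => c (Z.erase z) = true) by
        conv_lhs => rw [hZ]
        rw [filter_union, ← hZ]]
    rw [card_union_of_disjoint]
    · congr 1
      · by_cases h : ε' = true
        · rw [if_pos h, filter_true_of_mem]
          intro z hz; rw [hX z hz, h]
        · rw [if_neg h, filter_false_of_mem, card_empty]
          intro z hz; rw [hX z hz]; exact h
      · by_cases h : ε = true
        · rw [if_pos h, filter_true_of_mem]
          intro z hz; rw [hY z hz, h]
        · rw [if_neg h, filter_false_of_mem, card_empty]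
          intro z hz; rw [hY z hz]; exact h
    · exact hXY.mono (filter_subset _ _) (filter_subset _ _)
  · exact (erase_injOn Z).mono (by
      intro z hz
      exact (mem_filter.1 (mem_coe.1 hz)).1)

lemma good_simple (i j : ℕ) (ε ε' : Bool) : ∃ C, Good (i + j + 2) (i + j + 3)
    ((if ε' = true then i + 1 else 0) + if ε = true then j + 2 else 0) C := by
  set P : OC := .comb ε .pt (.comb ε' .pt .pt) with hP
  obtain ⟨C₁, hC₁⟩ := thr_le P
  obtain ⟨C₂, hC₂, hdet⟩ := red i j
  refine ⟨(C₁ + (i + j) + 1) * C₂, fun n hn c S hS => ?_⟩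
  have h1 : tow (i + j) ((n ^ (C₁ + (i + j) + 1)) ^ C₂) ≤ S.card := by
    rw [← pow_mul]; exact hS
  have hM2 : 2 ≤ n ^ (C₁ + (i + j) + 1) := hn.trans (Nat.le_self_pow (by omega) n)
  have hbig : n ^ C₁ + (i + j) ≤ n ^ (C₁ + (i + j) + 1) := by
    generalize i + j = s at *
    have h2 : s + 1 ≤ n ^ (s + 1) :=
      (Nat.lt_two_pow_self).le.trans (Nat.pow_le_pow_left hn _)
    have h3 : 1 ≤ n ^ C₁ := Nat.one_le_pow _ _ (by omega)
    calc n ^ C₁ + s ≤ n ^ C₁ * (s + 1) := by nlinarith
      _ ≤ n ^ C₁ * n ^ (s + 1) := Nat.mul_le_mul_left _ h2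
      _ = n ^ (C₁ + s + 1) := by rw [← pow_add]; ring_nf
  obtain ⟨U, hU, hUM, χ, hχ⟩ := hdet _ hM2 c S h1
  obtain ⟨T₁, hT₁, hT₁i, hT₁lt⟩ := exists_initial U i (by omega)
  obtain ⟨T₂, hT₂, hT₂j, hT₂lt⟩ := exists_final (U \ T₁) j (by
    rw [card_sdiff_of_subset hT₁]; omega)
  set U₀ := (U \ T₁) \ T₂ with hU₀
  have hU₀U : U₀ ⊆ U := sdiff_subset.trans sdiff_subset
  have hU₀c : thr n P ≤ U₀.card := by
    rw [hU₀, card_sdiff_of_subset hT₂, card_sdiff_of_subset hT₁]
    have := hC₁ n hn
    omega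
  rcases exists_copy χ n P U₀ hU₀c with ⟨H, hH, hHn, δ, hδ⟩ | ⟨Z, hZ, hc⟩
  · refine Or.inl ⟨H, (hH.trans hU₀U).trans hU, hHn, δ, ?_⟩
    intro A hA hAr
    have hAU : A ⊆ U := hA.trans (hH.trans hU₀U)
    obtain ⟨B₁, hB₁, hB₁i, hB₁lt⟩ := exists_initial A i (by omega)
    have hA₁c : (A \ B₁).card = j + 2 := by rw [card_sdiff_of_subset hB₁]; omega
    have hA₁ne : (A \ B₁).Nonempty := by rw [← card_pos]; omega
    set x := (A \ B₁).min' hA₁ne with hx
    have hxA : x ∈ A \ B₁ := min'_mem _ _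
    have hA₂ne : ((A \ B₁).erase x).Nonempty := by
      rw [← card_pos, card_erase_of_mem hxA]; omega
    set y := ((A \ B₁).erase x).min' hA₂ne with hy
    have hyA : y ∈ (A \ B₁).erase x := min'_mem _ _
    have hyA' := mem_erase.1 hyA
    have hxy : x < y := lt_of_le_of_ne (min'_le _ _ hyA'.2) (Ne.symm hyA'.1)
    have hdec : B₁ ∪ {x, y} ∪ ((A \ B₁).erase x).erase y = A := by
      rw [union_assoc]
      have h2 : ({x, y} : Finset ℕ) ∪ ((A \ B₁).erase x).erase y = A \ B₁ := by
        rw [insert_union, ← insert_eq, insert_erase hyA, insert_erase hxA]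
      rw [h2, union_sdiff_of_subset hB₁]
    have hsub : ((A \ B₁).erase x).erase y ⊆ A :=
      ((erase_subset _ _).trans (erase_subset _ _)).trans sdiff_subset
    have := hχ B₁ (hB₁.trans hAU) (((A \ B₁).erase x).erase y) (hsub.trans hAU) x
      (hAU (mem_sdiff.1 hxA).1) y (hAU (mem_sdiff.1 hyA'.2).1) hB₁i
      (by rw [card_erase_of_mem hyA, card_erase_of_mem hxA, hA₁c]; rfl)
      (fun b hb => hB₁lt b hb x hxA) hxy
      (fun b hb => lt_of_le_of_ne (min'_le _ _ (mem_erase.1 hb).2) (Ne.symm (mem_erase.1 hb).1))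
    rw [hdec] at this
    rw [this]
    exact hδ x (hA (mem_sdiff.1 hxA).1) y (hA (mem_sdiff.1 hyA'.2).1) hxy
  · obtain ⟨_, _, rfl, h12, he1, ⟨p, rfl⟩, ⟨_, _, rfl, h23, he2, ⟨q, rfl⟩, ⟨u, rfl⟩⟩⟩ := hc
    have hpq : p < q := h12 p (by simp) q (by simp)
    have hpu : p < u := h12 p (by simp) u (by simp)
    have hqu : q < u := h23 q (by simp) u (by simp)
    have cpq : χ p q = ε := he1 p (by simp) q (by simp)
    have cpu : χ p u = ε := he1 p (by simp) u (by simp)
    have cqu : χ q u = ε' := he2 q (by simp) u (by simp)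
    have hpU : p ∈ U₀ := hZ (by simp)
    have hqU : q ∈ U₀ := hZ (by simp)
    have huU : u ∈ U₀ := hZ (by simp)
    have hT₁p : ∀ a ∈ T₁, ∀ b ∈ U₀, a < b := fun a ha b hb =>
      hT₁lt a ha b (sdiff_subset hb)
    have hT₂p : ∀ a ∈ T₂, ∀ b ∈ U₀, b < a := fun a ha b hb => hT₂lt a ha b hb
    have hT₂U : T₂ ⊆ U := hT₂.trans sdiff_subset
    have h1p := fun a ha => hT₁p a ha p hpU
    have h1q := fun a ha => hT₁p a ha q hqU
    have h1u := fun a ha => hT₁p a ha u huU
    have h2p := fun a ha => hT₂p a ha p hpU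
    have h2q := fun a ha => hT₂p a ha q hqU
    have h2u := fun a ha => hT₂p a ha u huU
    set X : Finset ℕ := insert p T₁ with hX
    set Y : Finset ℕ := insert q (insert u T₂) with hY
    have hXc : X.card = i + 1 := by
      rw [hX, card_insert_of_notMem (fun h => lt_irrefl _ (h1p p h)), hT₁i]
    have hYc : Y.card = j + 2 := by
      rw [hY, card_insert_of_notMem, card_insert_of_notMem (fun h => lt_irrefl _ (h2u u h)), hT₂j]
      rw [mem_insert]
      rintro (h | h)
      · omega
      · exact lt_irrefl _ (h2q q h)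
    have hXlt : ∀ a ∈ X, ∀ b ∈ Y, a < b := by
      intro a ha b hb
      rw [hX, mem_insert] at ha
      rw [hY, mem_insert, mem_insert] at hb
      rcases ha with rfl | ha
      · rcases hb with rfl | rfl | hb
        · exact hpq
        · exact hpu
        · exact h2p b hb
      · rcases hb with rfl | rfl | hb
        · exact h1q a ha
        · exact h1u a ha
        · exact (h1p a ha).trans (h2p b hb)
    have hdis : Disjoint X Y := by
      rw [disjoint_left]
      intro z hz hz'
      exact lt_irrefl _ (hXlt z hz z hz')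
    have hXU : X ⊆ U := insert_subset (hU₀U hpU) hT₁
    have hYU : Y ⊆ U := insert_subset (hU₀U hqU) (insert_subset (hU₀U huU) hT₂U)
    have hcard : (X ∪ Y).card = i + j + 2 + 1 := by
      rw [card_union_of_disjoint hdis, hXc, hYc]; ring
    refine Or.inr ⟨X ∪ Y, (union_subset hXU hYU).trans hU, hcard, ?_⟩
    rw [← hXc, ← hYc]
    refine card_miss_one rfl hcard hdis ?_ ?_
    · intro z hz
      have hzY : z ∉ Y := fun h => lt_irrefl _ (hXlt z hz z h)
      have h2 : (X ∪ Y).erase z = X.erase z ∪ {q, u} ∪ T₂ := by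
        rw [erase_union_distrib, erase_eq_of_notMem hzY, hY, union_assoc]
        congr 1
        ext a
        simp only [mem_union, mem_insert, mem_singleton]
        tauto
      rw [h2, hχ (X.erase z) ((erase_subset _ _).trans hXU) T₂ hT₂U q (hU₀U hqU) u (hU₀U huU)
        (by rw [card_erase_of_mem hz, hXc]; rfl) hT₂j ?_ hqu (fun b hb => h2u b hb)]
      · exact cqu
      · intro b hb
        exact hXlt b (mem_erase.1 hb).2 q (by rw [hY]; exact mem_insert_self _ _)
    · intro z hz
      have hzX : z ∉ X := fun h => lt_irrefl _ (hXlt z h z hz)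
      by_cases hzq : z = q
      · have h2 : (X ∪ Y).erase z = T₁ ∪ {p, u} ∪ T₂ := by
          have hqY : q ∉ insert u T₂ := by
            rw [mem_insert]
            rintro (h | h)
            · omega
            · exact lt_irrefl _ (h2q q h)
          rw [erase_union_distrib, erase_eq_of_notMem hzX, hY, hzq, erase_insert hqY, hX]
          ext a
          simp only [mem_union, mem_insert, mem_singleton]
          tauto
        rw [h2, hχ T₁ hT₁ T₂ hT₂U p (hU₀U hpU) u (hU₀U huU) hT₁i hT₂j (fun b hb => h1p b hb) hpu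
          (fun b hb => h2u b hb)]
        exact cpu
      · have hz' : z ∈ insert u T₂ := by
          rw [hY, mem_insert] at hz
          exact hz.resolve_left hzq
        have h2 : (X ∪ Y).erase z = T₁ ∪ {p, q} ∪ (insert u T₂).erase z := by
          rw [erase_union_distrib, erase_eq_of_notMem hzX, hY,
            erase_insert_of_ne (Ne.symm hzq), hX]
          ext a
          simp only [mem_union, mem_insert, mem_singleton]
          tauto
        have huT : u ∉ T₂ := fun h => lt_irrefl _ (h2u u h)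
        rw [h2, hχ T₁ hT₁ ((insert u T₂).erase z)
          ((erase_subset _ _).trans (insert_subset (hU₀U huU) hT₂U)) p (hU₀U hpU) q (hU₀U hqU)
          hT₁i (by rw [card_erase_of_mem hz', card_insert_of_notMem huT, hT₂j]; rfl)
          (fun b hb => h1p b hb) hpq ?_]
        · exact cpq
        · intro b hb
          have := (mem_erase.1 hb).2
          rw [mem_insert] at this
          rcases this with rfl | h
          · exact hqu
          · exact h2q b h

/-- One constant for all sizes. -/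
lemma good_all {r m : ℕ} (h : ∀ f, f ≤ m.choose r → ∃ C, Good r m f C) :
    ∃ C, ∀ f, f ≤ m.choose r → Good r m f C := by
  choose! C hC using h
  refine ⟨(range (m.choose r + 1)).sup C, fun f hf => (hC f hf).mono ?_⟩
  exact le_sup (f := C) (mem_range.2 (by omega))

lemma good_of_full {r m : ℕ} (hr : 2 ≤ r) (h : Full r m) :
    ∃ C, ∀ f, f ≤ m.choose r → Good r m f C := by
  obtain ⟨s, rfl⟩ : ∃ s, r = s + 2 := ⟨r - 2, by omega⟩
  refine good_all fun f hf => ?_
  obtain ⟨P, h1, h2⟩ := h f hf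
  obtain ⟨C, hC⟩ := good_pattern s P
  refine ⟨C, ?_⟩
  have h3 : P.size + s = m := h1
  have h4 : W (s + 2) s P = f := h2
  rw [h3, h4] at hC
  exact hC

lemma good_succ {r : ℕ} (hr : 2 ≤ r) : ∃ C, ∀ f, f ≤ (r + 1).choose r → Good r (r + 1) f C := by
  refine good_all fun f hf => ?_
  have h1 : (r + 1).choose r = r + 1 := Nat.choose_succ_self_right r
  rw [h1] at hf
  rcases Nat.eq_zero_or_pos f with h0 | h0
  · obtain ⟨C, hC⟩ := good_simple 0 (r - 2) false false
    refine ⟨C, ?_⟩
    have e1 : 0 + (r - 2) + 2 = r := by omega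
    have e2 : 0 + (r - 2) + 3 = r + 1 := by omega
    rw [e1, e2] at hC
    simpa [h0] using hC
  · by_cases h2 : f ≤ r - 1
    · obtain ⟨C, hC⟩ := good_simple (f - 1) (r - 1 - f) false true
      refine ⟨C, ?_⟩
      have e1 : f - 1 + (r - 1 - f) + 2 = r := by omega
      have e2 : f - 1 + (r - 1 - f) + 3 = r + 1 := by omega
      have e3 : f - 1 + 1 = f := by omega
      rw [e1, e2, e3] at hC
      simpa using hC
    · by_cases h3 : f = r
      · obtain ⟨C, hC⟩ := good_simple 0 (r - 2) true false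
        refine ⟨C, ?_⟩
        have e1 : 0 + (r - 2) + 2 = r := by omega
        have e2 : 0 + (r - 2) + 3 = r + 1 := by omega
        have e3 : r - 2 + 2 = r := by omega
        rw [e1, e2, e3] at hC
        simpa [h3] using hC
      · obtain ⟨C, hC⟩ := good_simple 0 (r - 2) true true
        refine ⟨C, ?_⟩
        have e1 : 0 + (r - 2) + 2 = r := by omega
        have e2 : 0 + (r - 2) + 3 = r + 1 := by omega
        have e3 : r - 2 + 2 = r := by omega
        have e4 : 0 + 1 + r = f := by omega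
        rw [e1, e2, e3] at hC
        simp only [if_true] at hC
        rwa [e4] at hC

/-- The form for colourings of the `r`-subsets of any finite set. -/
lemma Good.transfer {r m f C : ℕ} (h : Good r m f C) {n : ℕ} (hn : 2 ≤ n) {V : Type} [Fintype V]
    (c : Finset V → Bool) (hV : tow (r - 2) (n ^ C) ≤ Fintype.card V) :
    (∃ H : Finset V, H.card = n ∧ ∃ δ : Bool, ∀ A ⊆ H, A.card = r → c A = δ) ∨
    ∃ Z : Finset V, Z.card = m ∧ ((Z.powersetCard r).filter fun A => c A = true).card = f := by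
  set φ : V ↪ ℕ := (Fintype.equivFin V).toEmbedding.trans Fin.valEmbedding with hφ
  set c' : Finset ℕ → Bool := fun A => c (univ.filter fun v => φ v ∈ A) with hc'
  have hcc : ∀ Y : Finset V, c' (Y.map φ) = c Y := by
    intro Y
    rw [hc']
    show c _ = c Y
    congr 1
    ext v
    rw [mem_filter, mem_map' φ]
    simp
  rcases h n hn c' (univ.map φ) (by rw [card_map, card_univ]; exact hV) with
    ⟨H, hH, hHn, δ, hδ⟩ | ⟨Z, hZ, hZm, hcnt⟩
  · obtain ⟨H', -, rfl⟩ := subset_map_iff.1 hH
    refine Or.inl ⟨H', by rw [← hHn, card_map], δ, fun A hA hAr => ?_⟩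
    rw [← hcc]
    exact hδ (A.map φ) (map_subset_map.2 hA) (by rw [card_map, hAr])
  · obtain ⟨Z', -, rfl⟩ := subset_map_iff.1 hZ
    refine Or.inr ⟨Z', by rw [← hZm, card_map], ?_⟩
    rw [Cnt, powersetCard_map, filter_map, card_map] at hcnt
    rw [← hcnt]
    congr 1
    refine filter_congr fun A _ => ?_
    show c A = true ↔ c' (A.map φ) = true
    rw [hcc]

end Pool.Agent.N440.OS
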