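import Pool.Agent.N440.OS.Weight

/-!
# Every order-size pair is realized by an ordered cograph
-/

set_option autoImplicit false

namespace Pool.Agent.N440.OS

open Finset

/-- `f` is the weight of an ordered cograph on `m - (r - 2)` vertices. -/
def Rep (r m f : ℕ) : Prop := ∃ P : OC, P.size + (r - 2) = m ∧ W r (r - 2) P = f

lemma Rep.iso {r m f : ℕ} (h : Rep r m f) : Rep r (m + 1) f := by
  obtain ⟨P, h1, h2⟩ := h
  refine ⟨.comb false .pt P, by simp only [OC.size]; omega, ?_⟩
  simp [W, h2]

lemma Rep.iso_le {r m m' f : ℕ} (h : Rep r m f) (hm : m ≤ m') : Rep r m' f := by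
  obtain ⟨k, rfl⟩ := Nat.exists_eq_add_of_le hm
  induction k with
  | zero => exact h
  | succ k ih => exact (ih (by omega)).iso

lemma Rep.dom {r m f : ℕ} (hr : 2 ≤ r) (h : Rep r m f) : Rep r (m + 1) (f + m.choose (r - 1)) := by
  obtain ⟨P, h1, h2⟩ := h
  refine ⟨.comb true .pt P, by simp only [OC.size]; omega, ?_⟩
  have h3 : (r - 2).choose (r - 1) = 0 := Nat.choose_eq_zero_of_lt (by omega)
  have h4 : r - 2 + P.size = m := by omega
  simp [W, h2, OC.size, h3, h4]

/-- The complement. -/
def OC.compl : OC → OC
  | .pt => .pt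
  | .comb ε P Q => .comb (!ε) P.compl Q.compl

lemma OC.size_compl (P : OC) : P.compl.size = P.size := by
  induction P with
  | pt => rfl
  | comb ε P Q hP hQ => simp only [OC.compl, OC.size, hP, hQ]

lemma W_compl {r : ℕ} (hr : 1 ≤ r) (P : OC) : ∀ a : ℕ,
    W r a P + W r a P.compl + P.size * a.choose (r - 1) + a.choose r = (a + P.size).choose r := by
  obtain ⟨s, rfl⟩ : ∃ s, r = s + 1 := ⟨r - 1, by omega⟩
  simp only [Nat.add_sub_cancel]
  induction P with
  | pt =>
    intro a
    simp only [W, OC.compl, OC.size]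
    rw [Nat.choose_succ_succ]
    ring
  | comb ε P Q hP hQ =>
    intro a
    have h1 := hP (a + Q.size)
    have h2 := hQ a
    have h3 : a.choose s ≤ (a + Q.size).choose s := Nat.choose_le_choose _ (by omega)
    have h4 : a + (P.size + Q.size) = a + Q.size + P.size := by ring
    obtain ⟨u, hu⟩ := Nat.exists_eq_add_of_le h3
    simp only [W, OC.compl, OC.size, OC.size_compl, h4, Nat.add_sub_cancel]
    rw [← h1, hu]
    rw [← h2]
    cases ε <;> simp <;> ring

lemma Rep.compl {r m f : ℕ} (hr : 2 ≤ r) (h : Rep r m f) : Rep r m (m.choose r - f) := by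
  obtain ⟨P, h1, h2⟩ := h
  refine ⟨P.compl, by rw [OC.size_compl]; exact h1, ?_⟩
  have h3 := W_compl (show 1 ≤ r by omega) P (r - 2)
  have h4 : (r - 2).choose (r - 1) = 0 := Nat.choose_eq_zero_of_lt (by omega)
  have h5 : (r - 2).choose r = 0 := Nat.choose_eq_zero_of_lt (by omega)
  have h6 : r - 2 + P.size = m := by omega
  rw [h4, h5, h6, h2] at h3
  omega

/-- All sizes are realized. -/
def Full (r m : ℕ) : Prop := ∀ f, f ≤ m.choose r → Rep r m f

lemma Full.step {r m : ℕ} (hr : 2 ≤ r) (h : Full r m) (hm : m.choose (r - 1) ≤ m.choose r + 1) :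
    Full r (m + 1) := by
  intro f hf
  obtain ⟨s, rfl⟩ : ∃ s, r = s + 1 := ⟨r - 1, by omega⟩
  have hcs : (m + 1).choose (s + 1) = m.choose s + m.choose (s + 1) := Nat.choose_succ_succ m s
  rw [hcs] at hf
  simp only [Nat.add_sub_cancel] at hm
  by_cases h1 : f ≤ m.choose (s + 1)
  · exact (h f h1).iso
  · have h2 := (h (f - m.choose s) (by omega)).dom hr
    simp only [Nat.add_sub_cancel] at h2
    have h3 : f - m.choose s + m.choose s = f := by omega
    rwa [h3] at h2

lemma full_three_three : Full 3 3 := by
  intro f hf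
  have hf' : f ≤ 1 := hf
  interval_cases f
  · exact ⟨.comb false .pt .pt, rfl, rfl⟩
  · exact ⟨.comb true .pt .pt, rfl, rfl⟩

lemma full_three_four : Full 3 4 := by
  intro f hf
  have hf' : f ≤ 4 := hf
  interval_cases f
  · exact (full_three_three 0 (by decide)).iso
  · exact (full_three_three 1 (by decide)).iso
  · exact ⟨.comb false (.comb true .pt .pt) .pt, rfl, by decide⟩
  · exact (full_three_three 0 (by decide)).dom (by norm_num)
  · exact (full_three_three 1 (by decide)).dom (by norm_num)

lemma full_three_five : Full 3 5 := by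
  intro f hf
  have hf' : f ≤ 10 := hf
  rcases Nat.lt_or_ge f 5 with h | h
  · exact (full_three_four f (by have : Nat.choose 4 3 = 4 := rfl; omega)).iso
  rcases Nat.lt_or_ge f 6 with h6 | h6
  · have : f = 5 := by omega
    subst this
    exact ⟨.comb false (.comb true .pt (.comb false .pt .pt)) .pt, rfl, by decide⟩
  · have h1 := (full_three_four (f - 6) (by have : Nat.choose 4 3 = 4 := rfl; omega)).dom
      (by norm_num)
    have h2 : f - 6 + Nat.choose 4 (3 - 1) = f := by
      have : Nat.choose 4 (3 - 1) = 6 := rfl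
      omega
    rwa [h2] at h1

lemma full_four_four : Full 4 4 := by
  intro f hf
  have hf' : f ≤ 1 := hf
  interval_cases f
  · exact ⟨.comb false .pt .pt, rfl, rfl⟩
  · exact ⟨.comb true .pt .pt, rfl, rfl⟩

lemma full_four_five : Full 4 5 := by
  intro f hf
  have hf' : f ≤ 5 := hf
  have h2 : Rep 4 5 2 := ⟨.comb true (.comb false .pt .pt) .pt, rfl, by decide⟩
  interval_cases f
  · exact (full_four_four 0 (by decide)).iso
  · exact (full_four_four 1 (by decide)).iso
  · exact h2
  · exact h2.compl (by norm_num)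
  · exact (full_four_four 0 (by decide)).dom (by norm_num)
  · exact (full_four_four 1 (by decide)).dom (by norm_num)

lemma full_four_six : Full 4 6 := by
  intro f hf
  have hf' : f ≤ 15 := hf
  have h6 : Rep 4 6 6 := ⟨.comb false (.comb true .pt .pt) (.comb false .pt .pt), rfl, by decide⟩
  have h7 : Rep 4 6 7 := ⟨.comb false (.comb true .pt .pt) (.comb true .pt .pt), rfl, by decide⟩
  rcases Nat.lt_or_ge f 6 with h | h
  · exact (full_four_five f (by have : Nat.choose 5 4 = 5 := rfl; omega)).iso
  rcases Nat.lt_or_ge f 10 with h' | h'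
  · interval_cases f
    · exact h6
    · exact h7
    · exact h7.compl (by norm_num)
    · exact h6.compl (by norm_num)
  · have h1 := (full_four_five (f - 10) (by have : Nat.choose 5 4 = 5 := rfl; omega)).dom
      (by norm_num)
    have h2 : f - 10 + Nat.choose 5 (4 - 1) = f := by
      have : Nat.choose 5 (4 - 1) = 10 := rfl
      omega
    rwa [h2] at h1

lemma full_four_seven : Full 4 7 := by
  intro f hf
  have hf' : f ≤ 35 := hf
  have h16 : Rep 4 7 16 := ⟨.comb false (.comb true .pt (.comb false .pt .pt))
    (.comb false .pt .pt), rfl, by decide⟩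
  have h17 : Rep 4 7 17 := ⟨.comb false (.comb true .pt (.comb false .pt .pt))
    (.comb true .pt .pt), rfl, by decide⟩
  rcases Nat.lt_or_ge f 16 with h | h
  · exact (full_four_six f (by have : Nat.choose 6 4 = 15 := rfl; omega)).iso
  rcases Nat.lt_or_ge f 20 with h' | h'
  · interval_cases f
    · exact h16
    · exact h17
    · exact h17.compl (by norm_num)
    · exact h16.compl (by norm_num)
  · have h1 := (full_four_six (f - 20) (by have : Nat.choose 6 4 = 15 := rfl; omega)).dom
      (by norm_num)
    have h2 : f - 20 + Nat.choose 6 (4 - 1) = f := by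
      have : Nat.choose 6 (4 - 1) = 20 := rfl
      omega
    rwa [h2] at h1

lemma full_of_full {r m : ℕ} (hr : 2 ≤ r) (hm : 2 * r ≤ m + 1) (h : Full r m)
    (h0 : m.choose (r - 1) ≤ m.choose r + 1) : ∀ m', m ≤ m' → Full r m' := by
  intro m' hm'
  obtain ⟨k, rfl⟩ := Nat.exists_eq_add_of_le hm'
  clear hm'
  induction k with
  | zero => exact h
  | succ k ih =>
    refine ih.step hr ?_
    rcases Nat.eq_zero_or_pos k with rfl | hk
    · exact h0
    · have h1 : (m + k).choose (r - 1) ≤ (m + k).choose (r - 1 + 1) :=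
        Nat.choose_le_succ_of_lt_half_left (by omega)
      have h2 : r - 1 + 1 = r := by omega
      rw [h2] at h1
      show (m + k).choose (r - 1) ≤ (m + k).choose r + 1
      exact h1.trans (Nat.le_succ _)

lemma full_three {m : ℕ} (hm : 4 ≤ m) : Full 3 m := by
  rcases Nat.lt_or_ge m 5 with h | h
  · have : m = 4 := by omega
    subst this
    exact full_three_four
  · exact full_of_full (by norm_num) (by norm_num) full_three_five (by decide) m h

lemma full_four {m : ℕ} (hm : 5 ≤ m) : Full 4 m := by
  rcases Nat.lt_or_ge m 7 with h | h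
  · interval_cases m
    · exact full_four_five
    · exact full_four_six
  · exact full_of_full (by norm_num) (by norm_num) full_four_seven (by decide) m h

end Pool.Agent.N440.OS
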