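import Pool.Agent.N440.OS.Cog

/-!
# The number of `r`-subsets of a copy of an ordered cograph
-/

set_option autoImplicit false

namespace Pool.Agent.N440.OS

open Finset Classical

/-- The number of `r`-subsets of colour `1` which have their first two elements in a copy of `P`
that is followed by `a` further points. -/
def W (r : ℕ) : ℕ → OC → ℕ
  | _, .pt => 0
  | a, .comb ε P Q => W r (a + Q.size) P + W r a Q +
      if ε = true then P.size * ((a + Q.size).choose (r - 1) - a.choose (r - 1)) else 0

/-- The colour of an `r`-subset of `U` is the colour `χ` of its first two elements. -/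
def Det (r : ℕ) (c : Finset ℕ → Bool) (χ : ℕ → ℕ → Bool) (U : Finset ℕ) : Prop :=
  ∀ A ⊆ U, A.card = r → ∀ x ∈ A, ∀ y ∈ A, x < y → (∀ z ∈ A, z = x ∨ y ≤ z) → c A = χ x y

lemma Det.mono {r : ℕ} {c : Finset ℕ → Bool} {χ : ℕ → ℕ → Bool} {U V : Finset ℕ} (h : U ⊆ V)
    (hd : Det r c χ V) : Det r c χ U := fun A hA => hd A (hA.trans h)

/-- Sets with exactly one point in `Z₁` and a point in `Z₂`. -/
lemma card_one_cross (Z₁ Z₂ T : Finset ℕ) (r : ℕ) (hr : 1 ≤ r)
    (h12 : ∀ x ∈ Z₁, ∀ y ∈ Z₂ ∪ T, x < y) (h2T : ∀ x ∈ Z₂, ∀ y ∈ T, x < y) :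
    (((Z₁ ∪ Z₂ ∪ T).powersetCard r).filter fun A => (A ∩ Z₁).card = 1 ∧ 1 ≤ (A ∩ Z₂).card).card =
      Z₁.card * ((T.card + Z₂.card).choose (r - 1) - T.card.choose (r - 1)) := by
  have hd : Disjoint Z₁ (Z₂ ∪ T) := by
    rw [disjoint_left]; intro x hx hx'; exact lt_irrefl _ (h12 x hx x hx')
  have hd2 : Disjoint Z₂ T := by
    rw [disjoint_left]; intro x hx hx'; exact lt_irrefl _ (h2T x hx x hx')
  -- the sets `B`
  have hB : (((Z₂ ∪ T).powersetCard (r - 1)) \ (T.powersetCard (r - 1))).card =
      (T.card + Z₂.card).choose (r - 1) - T.card.choose (r - 1) := by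
    rw [card_sdiff_of_subset (powersetCard_mono subset_union_right), card_powersetCard,
      card_powersetCard, card_union_of_disjoint hd2, add_comm Z₂.card]
  have hdB : ∀ B ⊆ Z₂ ∪ T, ∀ x ∈ Z₁, x ∉ B := fun B hBs x hx hxB =>
    lt_irrefl _ (h12 x hx x (hBs hxB))
  have himg : ((Z₁ ∪ Z₂ ∪ T).powersetCard r).filter
      (fun A => (A ∩ Z₁).card = 1 ∧ 1 ≤ (A ∩ Z₂).card) =
      (Z₁ ×ˢ (((Z₂ ∪ T).powersetCard (r - 1)) \ (T.powersetCard (r - 1)))).image
        (fun p => insert p.1 p.2) := by
    ext A
    rw [mem_filter, mem_powersetCard, mem_image]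
    constructor
    · rintro ⟨⟨hA, hAr⟩, h1, h2⟩
      obtain ⟨x, hx⟩ := card_eq_one.1 h1
      have hxA : x ∈ A ∩ Z₁ := by rw [hx]; exact mem_singleton_self x
      rw [mem_inter] at hxA
      have hBs : A.erase x ⊆ Z₂ ∪ T := by
        intro z hz
        rw [mem_erase] at hz
        have h3 := hA hz.2
        rw [mem_union, mem_union] at h3
        rcases h3 with (h3 | h3) | h3
        · exfalso
          have : z ∈ A ∩ Z₁ := mem_inter.2 ⟨hz.2, h3⟩
          rw [hx, mem_singleton] at this
          exact hz.1 this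
        · exact mem_union_left _ h3
        · exact mem_union_right _ h3
      refine ⟨(x, A.erase x), ?_, insert_erase hxA.1⟩
      rw [mem_product, mem_sdiff, mem_powersetCard, mem_powersetCard]
      refine ⟨hxA.2, ⟨hBs, by rw [card_erase_of_mem hxA.1, hAr]⟩, ?_⟩
      rintro ⟨h3, _⟩
      obtain ⟨y, hy⟩ := card_pos.1 (show 0 < (A ∩ Z₂).card by omega)
      rw [mem_inter] at hy
      have hyx : y ≠ x := fun h => lt_irrefl _ (h12 x hxA.2 x (mem_union_left _ (h ▸ hy.2)))
      have hyT : y ∈ T := h3 (mem_erase.2 ⟨hyx, hy.1⟩)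
      exact lt_irrefl _ (h2T y hy.2 y hyT)
    · rintro ⟨⟨x, B⟩, hp, rfl⟩
      rw [mem_product, mem_sdiff, mem_powersetCard, mem_powersetCard] at hp
      obtain ⟨hx, ⟨hBs, hBc⟩, hBT⟩ := hp
      have hxB : x ∉ B := hdB B hBs x hx
      refine ⟨⟨?_, ?_⟩, ?_, ?_⟩
      · intro z hz
        rw [mem_insert] at hz
        rcases hz with rfl | hz
        · exact mem_union_left _ (mem_union_left _ hx)
        · have := hBs hz
          rw [mem_union] at this
          rcases this with h | h
          · exact mem_union_left _ (mem_union_right _ h)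
          · exact mem_union_right _ h
      · rw [card_insert_of_notMem hxB, hBc]; omega
      · have : insert x B ∩ Z₁ = {x} := by
          ext z
          rw [mem_inter, mem_insert, mem_singleton]
          constructor
          · rintro ⟨rfl | hz, hz1⟩
            · rfl
            · exact absurd hz (hdB B hBs z hz1)
          · rintro rfl
            exact ⟨Or.inl rfl, hx⟩
        rw [this, card_singleton]
      · by_contra hcon
        have hcon' : ¬ 1 ≤ (insert x B ∩ Z₂).card := hcon
        have h0 : insert x B ∩ Z₂ = ∅ := by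
          rw [← card_eq_zero]; omega
        apply hBT
        refine ⟨fun z hz => ?_, hBc⟩
        have := hBs hz
        rw [mem_union] at this
        rcases this with h | h
        · exfalso
          have : z ∈ insert x B ∩ Z₂ := mem_inter.2 ⟨mem_insert_of_mem hz, h⟩
          rw [h0] at this
          simp at this
        · exact h
  rw [himg, card_image_of_injOn, card_product, hB]
  rintro ⟨x, B⟩ hp ⟨x', B'⟩ hp' he
  rw [mem_coe, mem_product, mem_sdiff, mem_powersetCard] at hp hp'
  have he' : insert x B = insert x' B' := he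
  have hxB := hdB B hp.2.1.1
  have hxB' := hdB B' hp'.2.1.1
  have hxx : x = x' := by
    have : x ∈ insert x' B' := by rw [← he']; exact mem_insert_self _ _
    rw [mem_insert] at this
    rcases this with h | h
    · exact h
    · exact absurd h (hxB' x hp.1)
  subst hxx
  have hBB : B = B' := by
    have h1 := erase_insert (hxB x hp.1)
    have h2 := erase_insert (hxB' x hp.1)
    rw [← h1, ← h2, he']
  rw [hBB]

/-- The number of `r`-subsets of colour `1` with two points in a copy. -/
lemma card_copy {r : ℕ} (hr : 2 ≤ r) {c : Finset ℕ → Bool} {χ : ℕ → ℕ → Bool} (P : OC) :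
    ∀ (Z T : Finset ℕ), (∀ x ∈ Z, ∀ y ∈ T, x < y) → Det r c χ (Z ∪ T) → Copy χ P Z →
    (((Z ∪ T).powersetCard r).filter fun A => 2 ≤ (A ∩ Z).card ∧ c A = true).card =
      W r T.card P := by
  induction P with
  | pt =>
    rintro Z T _ _ ⟨v, rfl⟩
    rw [W, card_eq_zero, filter_eq_empty_iff]
    rintro A _ ⟨h, _⟩
    have : (A ∩ {v}).card ≤ 1 := (card_le_card inter_subset_right).trans (by simp)
    omega
  | comb ε P Q hP hQ =>
    rintro Z T hZT hdet ⟨Z₁, Z₂, rfl, h12, hε, hc1, hc2⟩
    have h1T : ∀ x ∈ Z₁, ∀ y ∈ T, x < y := fun x hx => hZT x (mem_union_left _ hx)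
    have h2T : ∀ x ∈ Z₂, ∀ y ∈ T, x < y := fun x hx => hZT x (mem_union_right _ hx)
    have h12T : ∀ x ∈ Z₁, ∀ y ∈ Z₂ ∪ T, x < y := by
      intro x hx y hy
      rw [mem_union] at hy
      rcases hy with hy | hy
      · exact h12 x hx y hy
      · exact h1T x hx y hy
    have hd12 : Disjoint Z₁ Z₂ := by
      rw [disjoint_left]; intro x hx hx'; exact lt_irrefl _ (h12 x hx x hx')
    have hd2T : Disjoint Z₂ T := by
      rw [disjoint_left]; intro x hx hx'; exact lt_irrefl _ (h2T x hx x hx')
    have e1 := hP Z₁ (Z₂ ∪ T) h12T (by rw [← union_assoc]; exact hdet) hc1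
    have e2 := hQ Z₂ T h2T (hdet.mono (by
      rw [union_assoc]; exact subset_union_right)) hc2
    rw [card_union_of_disjoint hd2T, hc2.card, add_comm Q.size] at e1
    -- the sum over the two parts
    have hsplit : ∀ A, (A ∩ (Z₁ ∪ Z₂)).card = (A ∩ Z₁).card + (A ∩ Z₂).card := by
      intro A
      rw [inter_union_distrib_left, card_union_of_disjoint]
      exact hd12.mono inter_subset_right inter_subset_right
    set S := (Z₁ ∪ Z₂ ∪ T).powersetCard r with hS
    have hpart : S.filter (fun A => 2 ≤ (A ∩ (Z₁ ∪ Z₂)).card ∧ c A = true) =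
        (S.filter fun A => 2 ≤ (A ∩ Z₁).card ∧ c A = true) ∪
        ((S.filter fun A => (A ∩ Z₁).card = 0 ∧ 2 ≤ (A ∩ Z₂).card ∧ c A = true) ∪
        (S.filter fun A => ((A ∩ Z₁).card = 1 ∧ 1 ≤ (A ∩ Z₂).card) ∧ c A = true)) := by
      ext A
      simp only [mem_union, mem_filter, hsplit]
      constructor
      · rintro ⟨h1, h2, h3⟩
        by_cases h4 : 2 ≤ (A ∩ Z₁).card
        · exact Or.inl ⟨h1, h4, h3⟩
        · by_cases h5 : (A ∩ Z₁).card = 0
          · exact Or.inr (Or.inl ⟨h1, h5, by omega, h3⟩)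
          · exact Or.inr (Or.inr ⟨h1, ⟨by omega, by omega⟩, h3⟩)
      · rintro (⟨h1, h2, h3⟩ | ⟨h1, h2, h3, h4⟩ | ⟨h1, ⟨h2, h3⟩, h4⟩)
        · exact ⟨h1, by omega, h3⟩
        · exact ⟨h1, by omega, h4⟩
        · exact ⟨h1, by omega, h4⟩
    rw [hpart, card_union_of_disjoint, card_union_of_disjoint]
    rotate_left
    · rw [disjoint_left]
      intro A h1 h2
      rw [mem_filter] at h1 h2
      have := h2.2.1.1
      omega
    · rw [disjoint_left]
      intro A h1 h2
      rw [mem_union, mem_filter, mem_filter] at h2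
      rw [mem_filter] at h1
      rcases h2 with h2 | h2
      · omega
      · have := h2.2.1.1
        omega
    have f1 : (S.filter fun A => 2 ≤ (A ∩ Z₁).card ∧ c A = true).card =
        W r (T.card + Q.size) P := by
      rw [← e1, hS, union_assoc]
    have f2 : (S.filter fun A => (A ∩ Z₁).card = 0 ∧ 2 ≤ (A ∩ Z₂).card ∧ c A = true).card =
        W r T.card Q := by
      rw [← e2]
      congr 1
      ext A
      rw [mem_filter, mem_filter, hS, mem_powersetCard, mem_powersetCard]
      constructor
      · rintro ⟨⟨h1, h2⟩, h3, h4⟩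
        refine ⟨⟨?_, h2⟩, h4⟩
        intro z hz
        have h5 := h1 hz
        rw [union_assoc, mem_union] at h5
        rcases h5 with h5 | h5
        · exfalso
          rw [card_eq_zero] at h3
          have : z ∈ A ∩ Z₁ := mem_inter.2 ⟨hz, h5⟩
          rw [h3] at this
          simp at this
        · exact h5
      · rintro ⟨⟨h1, h2⟩, h4⟩
        refine ⟨⟨h1.trans (by rw [union_assoc]; exact subset_union_right), h2⟩, ?_, h4⟩
        rw [card_eq_zero, eq_empty_iff_forall_notMem]
        intro z hz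
        rw [mem_inter] at hz
        exact lt_irrefl _ (h12T z hz.2 z (h1 hz.1))
    -- the colour of the sets with one point in `Z₁`
    have hcol : ∀ A ∈ S, (A ∩ Z₁).card = 1 ∧ 1 ≤ (A ∩ Z₂).card → c A = ε := by
      rintro A hA ⟨h1, h2⟩
      rw [hS, mem_powersetCard] at hA
      obtain ⟨x, hx⟩ := card_eq_one.1 h1
      have hxA : x ∈ A ∩ Z₁ := by rw [hx]; exact mem_singleton_self x
      have hne : (A ∩ Z₂).Nonempty := card_pos.1 (by omega)
      set y := (A ∩ Z₂).min' hne with hy
      have hyA : y ∈ A ∩ Z₂ := min'_mem _ _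
      rw [mem_inter] at hxA hyA
      rw [hdet A hA.1 hA.2 x hxA.1 y hyA.1 (h12 x hxA.2 y hyA.2) ?_]
      · exact hε x hxA.2 y hyA.2
      · intro z hz
        have h3 := hA.1 hz
        rw [mem_union, mem_union] at h3
        rcases h3 with (h3 | h3) | h3
        · left
          have : z ∈ A ∩ Z₁ := mem_inter.2 ⟨hz, h3⟩
          rw [hx, mem_singleton] at this
          exact this
        · exact Or.inr (min'_le _ _ (mem_inter.2 ⟨hz, h3⟩))
        · exact Or.inr (h2T y hyA.2 z h3).le
    have f3 : (S.filter fun A => ((A ∩ Z₁).card = 1 ∧ 1 ≤ (A ∩ Z₂).card) ∧ c A = true).card =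
        if ε = true then P.size * ((T.card + Q.size).choose (r - 1) - T.card.choose (r - 1))
          else 0 := by
      by_cases h : ε = true
      · rw [if_pos h, ← hc1.card, ← hc2.card, ← card_one_cross Z₁ Z₂ T r (by omega) h12T h2T]
        congr 1
        refine filter_congr fun A hA => ?_
        constructor
        · exact fun h1 => h1.1
        · exact fun h1 => ⟨h1, by rw [hcol A hA h1, h]⟩
      · rw [if_neg h, card_eq_zero, filter_eq_empty_iff]
        rintro A hA ⟨h1, h2⟩
        rw [hcol A hA h1] at h2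
        exact h h2
    rw [f1, f2, f3, W]
    ring

/-- The number of `r`-subsets of colour `1` in a copy followed by `r - 2` points. -/
lemma card_true {r : ℕ} (hr : 2 ≤ r) {c : Finset ℕ → Bool} {χ : ℕ → ℕ → Bool} {P : OC}
    {Z T : Finset ℕ} (hZT : ∀ x ∈ Z, ∀ y ∈ T, x < y) (hdet : Det r c χ (Z ∪ T))
    (hc : Copy χ P Z) (hT : T.card = r - 2) :
    (((Z ∪ T).powersetCard r).filter fun A => c A = true).card = W r (r - 2) P := by
  rw [← hT, ← card_copy hr P Z T hZT hdet hc]
  congr 1
  refine filter_congr fun A hA => ?_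
  rw [mem_powersetCard] at hA
  have h1 : A.card ≤ (A ∩ Z).card + (A ∩ T).card := by
    have : A ⊆ (A ∩ Z) ∪ (A ∩ T) := by
      rw [← inter_union_distrib_left]
      exact subset_inter (Subset.refl _) hA.1
    exact (card_le_card this).trans (card_union_le _ _)
  have h2 : (A ∩ T).card ≤ T.card := card_le_card inter_subset_right
  constructor
  · exact fun h => ⟨by omega, h⟩
  · exact fun h => h.2

end Pool.Agent.N440.OS
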